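import Mathlib

/-!
MP_fb225e_nt, project (A), module L, part 3: functions with alternating derivatives, and the
extension of a lower bound to the whole real axis.
-/

namespace Pool.Agent.MPfb225e.Landau

open Filter Topology MeasureTheory
open scoped ComplexOrder

/-- all derivatives at `c` alternate in sign -/
def CM (f : ℂ → ℂ) (c : ℂ) : Prop := ∀ n : ℕ, 0 ≤ (-1 : ℂ) ^ n * iteratedDeriv n f c

theorem CM.mul {f g : ℂ → ℂ} {c : ℂ} (hf : CM f c) (hg : CM g c) (hfa : AnalyticAt ℂ f c)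
    (hga : AnalyticAt ℂ g c) : CM (fun s => f s * g s) c := by
  intro n
  rw [iteratedDeriv_fun_mul hfa.contDiffAt hga.contDiffAt, Finset.mul_sum]
  refine Finset.sum_nonneg fun i hi => ?_
  rw [Finset.mem_range] at hi
  have e : (-1 : ℂ) ^ n * (n.choose i * iteratedDeriv i f c * iteratedDeriv (n - i) g c) =
      n.choose i * (((-1 : ℂ) ^ i * iteratedDeriv i f c) *
        ((-1 : ℂ) ^ (n - i) * iteratedDeriv (n - i) g c)) := by
    have h1 : (-1 : ℂ) ^ n = (-1) ^ i * (-1) ^ (n - i) := by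
      rw [← pow_add]; congr 1; omega
    rw [h1]
    ring
  rw [e]
  exact mul_nonneg (by positivity) (mul_nonneg (hf i) (hg (n - i)))

/-! ### Laplace transforms -/

/-- Laplace transform -/
noncomputable def lap (ψ : ℝ → ℝ) (s : ℂ) : ℂ := ∫ u : ℝ, (ψ u : ℂ) * Complex.exp (-(s * u))

theorem lap_real (ψ : ℝ → ℝ) (y : ℝ) : lap ψ y = ((∫ u : ℝ, ψ u * Real.exp (-(y * u)) : ℝ) : ℂ) := by
  unfold lap
  rw [← integral_complex_ofReal]
  congr 1
  funext u
  push_cast
  rfl

theorem hasDerivAt_lap {ψ : ℝ → ℝ} (hc : Continuous ψ) (hs : HasCompactSupport ψ) (s : ℂ) :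
    HasDerivAt (lap ψ) (lap (fun u => -u * ψ u) s) s := by
  have hcont : ∀ z : ℂ, Continuous fun u : ℝ => (ψ u : ℂ) * Complex.exp (-(z * u)) := fun z => by
    fun_prop
  have hcs : ∀ z : ℂ, HasCompactSupport fun u : ℝ => (ψ u : ℂ) * Complex.exp (-(z * u)) :=
    fun z => by
      refine HasCompactSupport.mul_right ?_
      exact hs.comp_left (g := fun x : ℝ => (x : ℂ)) (by simp)
  have hbc : Continuous fun u : ℝ => |u| * |ψ u| * Real.exp ((‖s‖ + 1) * |u|) := by fun_prop
  have hbs : HasCompactSupport fun u : ℝ => |u| * |ψ u| * Real.exp ((‖s‖ + 1) * |u|) := by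
    refine HasCompactSupport.mul_right ?_
    refine HasCompactSupport.mul_left ?_
    exact hs.comp_left (g := fun x : ℝ => |x|) (by simp)
  have h1 := hasDerivAt_integral_of_dominated_loc_of_deriv_le (μ := volume) (𝕜 := ℂ)
    (F := fun (z : ℂ) (u : ℝ) => (ψ u : ℂ) * Complex.exp (-(z * u)))
    (F' := fun (z : ℂ) (u : ℝ) => ((-u * ψ u : ℝ) : ℂ) * Complex.exp (-(z * u))) (x₀ := s)
    (s := Metric.ball s 1) (bound := fun u => |u| * |ψ u| * Real.exp ((‖s‖ + 1) * |u|))
    (Metric.ball_mem_nhds s one_pos) ?_ ?_ ?_ ?_ ?_ ?_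
  · exact h1.2
  · exact Eventually.of_forall fun z => (hcont z).aestronglyMeasurable
  · exact (hcont s).integrable_of_hasCompactSupport (hcs s)
  · have : Continuous fun u : ℝ => ((-u * ψ u : ℝ) : ℂ) * Complex.exp (-(s * u)) := by fun_prop
    exact this.aestronglyMeasurable
  · refine Eventually.of_forall fun u z hz => ?_
    rw [norm_mul, Complex.norm_real, Real.norm_eq_abs, abs_mul, abs_neg]
    refine mul_le_mul_of_nonneg_left ?_ (by positivity)
    rw [Complex.norm_exp]
    refine Real.exp_le_exp.2 ?_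
    have hz' : ‖z‖ ≤ ‖s‖ + 1 := by
      have h2 : ‖z - s‖ < 1 := by rwa [Metric.mem_ball, dist_eq_norm] at hz
      calc ‖z‖ = ‖s + (z - s)‖ := by congr 1; ring
        _ ≤ ‖s‖ + ‖z - s‖ := norm_add_le _ _
        _ ≤ ‖s‖ + 1 := by linarith
    calc (-(z * (u : ℂ))).re ≤ ‖-(z * (u : ℂ))‖ := Complex.re_le_norm _
      _ = ‖z‖ * |u| := by rw [norm_neg, norm_mul, Complex.norm_real, Real.norm_eq_abs]
      _ ≤ (‖s‖ + 1) * |u| := mul_le_mul_of_nonneg_right hz' (abs_nonneg _)
  · exact hbc.integrable_of_hasCompactSupport hbs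
  · refine Eventually.of_forall fun u z _ => ?_
    have h2 : HasDerivAt (fun z : ℂ => -(z * (u : ℂ))) (-(1 * (u : ℂ))) z :=
      ((hasDerivAt_id z).mul_const (u : ℂ)).neg
    have h3 := (h2.cexp).const_mul (ψ u : ℂ)
    refine h3.congr_deriv ?_
    push_cast
    ring

theorem lap_iteratedDeriv {ψ : ℝ → ℝ} (hc : Continuous ψ) (hs : HasCompactSupport ψ) (n : ℕ) :
    iteratedDeriv n (lap ψ) = lap (fun u => (-u) ^ n * ψ u) := by
  induction n with
  | zero => simp
  | succ n ih =>
    rw [iteratedDeriv_succ, ih]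
    funext s
    have hc' : Continuous fun u : ℝ => (-u) ^ n * ψ u := by fun_prop
    have hs' : HasCompactSupport fun u : ℝ => (-u) ^ n * ψ u := hs.mul_left
    rw [(hasDerivAt_lap hc' hs' s).deriv]
    congr 1
    funext u
    rw [pow_succ]
    ring

theorem lap_differentiable {ψ : ℝ → ℝ} (hc : Continuous ψ) (hs : HasCompactSupport ψ) :
    Differentiable ℂ (lap ψ) := fun s => (hasDerivAt_lap hc hs s).differentiableAt

theorem lap_CM {ψ : ℝ → ℝ} (hc : Continuous ψ) (hs : HasCompactSupport ψ) (h0 : ∀ u, 0 ≤ ψ u)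
    (hpos : ∀ u, ψ u ≠ 0 → 0 < u) (y : ℝ) : CM (lap ψ) y := by
  intro n
  rw [lap_iteratedDeriv hc hs, lap_real]
  have e : (-1 : ℂ) ^ n * ((∫ u : ℝ, (-u) ^ n * ψ u * Real.exp (-(y * u)) : ℝ) : ℂ) =
      ((∫ u : ℝ, u ^ n * ψ u * Real.exp (-(y * u)) : ℝ) : ℂ) := by
    have h1 : ((-1 : ℂ)) ^ n = (((-1 : ℝ) ^ n : ℝ) : ℂ) := by push_cast; rfl
    rw [h1, ← Complex.ofReal_mul, ← integral_const_mul]
    congr 2
    funext u
    have h2 : (-1 : ℝ) ^ n * ((-u) ^ n * ψ u * Real.exp (-(y * u))) =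
        ((-1) * (-u)) ^ n * ψ u * Real.exp (-(y * u)) := by
      rw [mul_pow]; ring
    rw [h2]
    congr 3
    ring
  rw [e, Complex.zero_le_real]
  refine integral_nonneg fun u => ?_
  by_cases hu : ψ u = 0
  · simp [hu]
  · have := hpos u hu
    have := h0 u
    positivity

theorem lap_pos {ψ : ℝ → ℝ} (hc : Continuous ψ) (hs : HasCompactSupport ψ) (h0 : ∀ u, 0 ≤ ψ u)
    {u₀ : ℝ} (hu₀ : ψ u₀ ≠ 0) (y : ℝ) : 0 < lap ψ y := by
  rw [lap_real, Complex.zero_lt_real]
  have hc' : Continuous fun u : ℝ => ψ u * Real.exp (-(y * u)) := by fun_prop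
  refine hc'.integral_pos_of_hasCompactSupport_nonneg_nonzero hs.mul_right
    (fun u => mul_nonneg (h0 u) (Real.exp_pos _).le) (x := u₀) ?_
  exact mul_ne_zero hu₀ (Real.exp_pos _).ne'

theorem lap_shift (φ : ℝ → ℝ) (s : ℂ) :
    lap φ (s - 1 / 2) = lap (fun u => φ u * Real.exp (u / 2)) s := by
  unfold lap
  congr 1
  funext u
  push_cast
  rw [mul_assoc, ← Complex.exp_add]
  congr 2
  ring

/-! ### The bound on the whole real axis -/

/-- partial sums -/
noncomputable def PT (E : ℕ → ℝ) (T : Finset ℕ) (s : ℂ) : ℂ :=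
  ∑ n ∈ T, LSeries.term (fun n => (E n : ℂ)) s n

theorem PT_differentiable (E : ℕ → ℝ) (T : Finset ℕ) : Differentiable ℂ (PT E T) := by
  unfold PT
  refine Differentiable.fun_sum fun n _ => ?_
  intro s
  rcases eq_or_ne n 0 with rfl | hn
  · have : (fun s => LSeries.term (fun n => (E n : ℂ)) s 0) = fun _ => 0 := by
      funext s; simp
    rw [this]
    exact differentiableAt_const _
  · have : (fun s => LSeries.term (fun n => (E n : ℂ)) s n) = fun s => (E n : ℂ) / (n : ℂ) ^ s := by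
      funext s; rw [LSeries.term_of_ne_zero hn]
    rw [this]
    have hn' : (n : ℂ) ≠ 0 := by exact_mod_cast hn
    refine DifferentiableAt.div (differentiableAt_const _)
      (differentiableAt_id.const_cpow (Or.inl hn')) ?_
    rw [Complex.cpow_def_of_ne_zero hn']
    exact Complex.exp_ne_zero _

theorem lower_bound (E : ℕ → ℝ) (hE : ∀ n, 0 ≤ E n)
    (hsum : ∀ s : ℂ, 3 / 2 < s.re → LSeriesSummable (fun n => (E n : ℂ)) s)
    {N : ℂ → ℂ} (hN : Differentiable ℂ N) (hCM : ∀ y : ℝ, CM N y)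
    {G : ℂ → ℂ} (hG : Differentiable ℂ G)
    (hGE : ∀ s : ℂ, 3 / 2 < s.re → G s = LSeries (fun n => (E n : ℂ)) s * N s)
    (y : ℝ) (T : Finset ℕ) : 0 ≤ G y - PT E T y * N y := by
  classical
  set c : ℝ := max y 2 with hc
  have hc2 : 3 / 2 < c := lt_of_lt_of_le (by norm_num) (le_max_right y 2)
  let E' : ℕ → ℂ := fun n => if n ∈ T then 0 else (E n : ℂ)
  have hE' : 0 ≤ E' := by
    intro n
    change 0 ≤ (if n ∈ T then 0 else (E n : ℂ))
    split_ifs
    · exact le_rfl
    · exact_mod_cast hE n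
  have hterm : ∀ (s : ℂ) (n : ℕ), LSeries.term E' s n =
      if n ∈ T then 0 else LSeries.term (fun n => (E n : ℂ)) s n := by
    intro s n
    rcases eq_or_ne n 0 with rfl | hn
    · simp
    · rw [LSeries.term_of_ne_zero hn, LSeries.term_of_ne_zero hn]
      change (if n ∈ T then 0 else (E n : ℂ)) / (n : ℂ) ^ s = _
      split_ifs
      · rw [zero_div]
      · rfl
  have hsum' : ∀ s : ℂ, 3 / 2 < s.re → LSeriesSummable E' s := by
    intro s hs
    refine Summable.of_norm_bounded (hsum s hs).norm fun n => ?_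
    rw [hterm]
    split_ifs
    · rw [norm_zero]; exact norm_nonneg _
    · exact le_rfl
  have hL : ∀ s : ℂ, 3 / 2 < s.re →
      LSeries E' s = LSeries (fun n => (E n : ℂ)) s - PT E T s := by
    intro s hs
    have h1 : LSeries (fun n => (E n : ℂ)) s - LSeries E' s = PT E T s := by
      unfold LSeries PT
      rw [← (hsum s hs).tsum_sub (hsum' s hs)]
      rw [tsum_eq_sum (s := T)]
      · refine Finset.sum_congr rfl fun n hn => ?_
        rw [hterm, if_pos hn, sub_zero]
      · intro n hn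
        rw [hterm, if_neg hn, sub_self]
    rw [← h1]
    ring
  have habs : LSeries.abscissaOfAbsConv E' < c := by
    have h1 := (hsum' (((3 / 2 + c) / 2 : ℝ) : ℂ) (by
      rw [Complex.ofReal_re]; linarith)).abscissaOfAbsConv_le
    refine lt_of_le_of_lt h1 ?_
    rw [Complex.ofReal_re]
    exact_mod_cast (by linarith : (3 / 2 + c) / 2 < c)
  have hopen : IsOpen {s : ℂ | 3 / 2 < s.re} := isOpen_lt continuous_const Complex.continuous_re
  have hcmem : (c : ℂ) ∈ {s : ℂ | 3 / 2 < s.re} := by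
    change 3 / 2 < ((c : ℝ) : ℂ).re
    rw [Complex.ofReal_re]; exact hc2
  have heq : Set.EqOn (fun s => G s - PT E T s * N s) (fun s => LSeries E' s * N s)
      {s : ℂ | 3 / 2 < s.re} := by
    intro s hs
    change G s - PT E T s * N s = LSeries E' s * N s
    rw [hGE s hs, hL s hs]
    ring
  have hLan : AnalyticAt ℂ (LSeries E') c := by
    refine LSeries_analyticOnNhd E' _ ?_
    change LSeries.abscissaOfAbsConv E' < (((c : ℝ) : ℂ).re : EReal)
    rw [Complex.ofReal_re]
    exact habs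
  have hcm1 : CM (fun s => LSeries E' s * N s) c := by
    refine CM.mul (fun n => ?_) (hCM c) hLan (hN.analyticAt _)
    exact LSeries.iteratedDeriv_alternating hE' habs n
  have hcm : CM (fun s => G s - PT E T s * N s) c := by
    intro n
    rw [heq.iteratedDeriv_of_isOpen hopen n hcmem]
    exact hcm1 n
  have hdiff : Differentiable ℂ fun s => G s - PT E T s * N s :=
    hG.sub ((PT_differentiable E T).mul hN)
  have h1 := hcm 0
  rw [pow_zero, one_mul, iteratedDeriv_zero] at h1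
  have h2 := hdiff.apply_le_of_iteratedDeriv_alternating (c := (c : ℂ)) (fun n _ => hcm n)
    (z := (y : ℂ)) (by exact_mod_cast le_max_left y 2)
  exact h1.trans h2

end Pool.Agent.MPfb225e.Landau
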