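import Mathlib
import Pool.Agent.Lib.MP_fb225e_nt.LogZetaDef

/-!
MP_fb225e_nt, project (A): all zeros on the edge are simple. Interface statements.
-/

namespace Pool.Agent.MPfb225e

open NumberField

universe u

/-- The number of integral ideals of norm `n`, and `0` for `n = 0`. -/
noncomputable def idl (K : Type u) [Field K] [NumberField K] (n : ℕ) : ℝ :=
  if n = 0 then 0 else (Nat.card {I : Ideal (𝓞 K) // Ideal.absNorm I = n} : ℝ)

/-- Admissible weights: smooth, compactly supported in `(0, ∞)`. -/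
structure Weight (φ : ℝ → ℝ) : Prop where
  smooth : ContDiff ℝ ((⊤ : ℕ∞) : WithTop ℕ∞) φ
  compact : HasCompactSupport φ
  pos : ∀ u, φ u ≠ 0 → 0 < u

/-- MODULE S (helper60): smooth count of ideals with an error smaller than any power. -/
def SmoothCount (K : Type u) [Field K] [NumberField K] : Prop :=
  ∀ φ : ℝ → ℝ, Weight φ → ∃ κ : ℝ, ∀ A : ℕ, ∃ C : ℝ, ∀ X : ℝ, 1 ≤ X →
    |∑' n : ℕ, idl K n * φ (Real.log X - Real.log n) - κ * X| ≤ C * (X ^ A)⁻¹

/-- MODULE M: `SmoothCount K → ZetaPhi K`. -/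
def ZetaPhi (K : Type u) [Field K] [NumberField K] : Prop :=
  ∀ φ : ℝ → ℝ, Weight φ → ∃ Z : ℂ → ℂ, Differentiable ℂ Z ∧ ∀ s : ℂ, 1 < s.re →
    Z s = (s - 1) * zetaK K s * ∫ u : ℝ, (φ u : ℂ) * Complex.exp (-(s * u))

/-- MODULE L: `ZetaPhi K → SimpleAtEdge K`. -/
def SimpleAtEdge (K : Type u) [Field K] [NumberField K] : Prop :=
  ∀ (W : WeierstrassCurve K) [W.IsElliptic] (F : ℂ → ℂ), Differentiable ℂ F →
    (∀ s : ℂ, 3 / 2 < s.re → F s = W.LSeries s) → analyticOrderAt F (3 / 2) ≤ 1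

end Pool.Agent.MPfb225e
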