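import Mathlib
import Pool.Agent.Lib.MP_fb225e_nt.Simple.Interface
import Pool.Agent.Lib.MP_fb225e_nt.Simple.Alternating
import Pool.Agent.Lib.MP_fb225e_nt.Zeta

/-!
MP_fb225e_nt, project (A), module M: from the smooth count of ideals to the continuation of the
smoothed zeta function.
-/

namespace Pool.Agent.MPfb225e.Mellin

open NumberField MeasureTheory Filter Topology Set
open Landau (lap)

universe u

variable (K : Type u) [Field K] [NumberField K]

/-- the smooth count as a function of `w = log X` -/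
noncomputable def gg (φ : ℝ → ℝ) (w : ℝ) : ℝ := ∑' n : ℕ, idl K n * φ (w - Real.log n)

theorem idl_nonneg (n : ℕ) : 0 ≤ idl K n := by
  unfold idl; split_ifs <;> positivity

variable {φ : ℝ → ℝ} (hφ : Weight φ)

include hφ

theorem phi_zero {u : ℝ} (hu : u ≤ 0) : φ u = 0 := by
  by_contra h
  exact absurd (hφ.pos u h) (not_lt.2 hu)

theorem gg_eq_sum {W w : ℝ} {N : ℕ} (hN : Real.exp W ≤ N) (hw : w ≤ W) :
    gg K φ w = ∑ n ∈ Finset.range N, idl K n * φ (w - Real.log n) := by
  unfold gg
  refine tsum_eq_sum fun n hn => ?_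
  rw [Finset.mem_range, not_lt] at hn
  have h1 : Real.exp W ≤ n := hN.trans (by exact_mod_cast hn)
  have h2 : W ≤ Real.log n := (Real.le_log_iff_exp_le ((Real.exp_pos W).trans_le h1)).2 h1
  rw [phi_zero hφ (by linarith), mul_zero]

theorem gg_zero {w : ℝ} (hw : w ≤ 0) : gg K φ w = 0 := by
  rw [gg_eq_sum K hφ (W := 0) (N := 1) (by simp) hw]
  simp [idl]

theorem continuous_gg : Continuous (gg K φ) := by
  rw [continuous_iff_continuousAt]
  intro w₀
  have hφc : Continuous φ := hφ.smooth.continuous
  have h1 : ContinuousAt (fun w => ∑ n ∈ Finset.range ⌈Real.exp (w₀ + 1)⌉₊,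
      idl K n * φ (w - Real.log n)) w₀ := by
    have : Continuous (fun w => ∑ n ∈ Finset.range ⌈Real.exp (w₀ + 1)⌉₊,
      idl K n * φ (w - Real.log n)) := by fun_prop
    exact this.continuousAt
  refine h1.congr ?_
  have h2 : ∀ᶠ w in 𝓝 w₀, w < w₀ + 1 := gt_mem_nhds (by linarith)
  filter_upwards [h2] with w hw
  exact (gg_eq_sum K hφ (Nat.le_ceil _) hw.le).symm

/-- the exchange of sum and integral -/
theorem transform {s : ℂ} (hs : 1 < s.re) :
    (∫ w : ℝ, (gg K φ w : ℂ) * Complex.exp (-(s * w))) = zetaK K s * lap φ s := by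
  have hφc : Continuous φ := hφ.smooth.continuous
  have hsum := Zeta.lseriesSummable K (s := (s.re : ℂ)) (by simpa using hs)
  -- the terms
  set f : ℕ → ℝ → ℂ := fun n w => (idl K n : ℂ) * ((φ (w - Real.log n) : ℂ) *
    Complex.exp (-(s * w))) with hf
  have hcs : ∀ n : ℕ, HasCompactSupport fun w : ℝ => φ (w - Real.log n) := fun n =>
    hφ.compact.comp_homeomorph (Homeomorph.subRight (Real.log n))
  have hint : ∀ n, Integrable (f n) := by
    intro n
    have h1 : Continuous fun w : ℝ => ((φ (w - Real.log n) : ℂ) * Complex.exp (-(s * w))) := by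
      fun_prop
    have h2 : HasCompactSupport fun w : ℝ => ((φ (w - Real.log n) : ℂ) *
        Complex.exp (-(s * w))) := by
      refine HasCompactSupport.mul_right ?_
      exact (hcs n).comp_left (g := fun x : ℝ => (x : ℂ)) (by simp)
    exact (h1.integrable_of_hasCompactSupport h2).const_mul _
  have hnorm : ∀ n w, ‖f n w‖ = idl K n * (|φ (w - Real.log n)| * Real.exp (-(s.re * w))) := by
    intro n w
    simp only [hf]
    rw [norm_mul, norm_mul, Complex.norm_real, Complex.norm_real, Complex.norm_exp,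
      Real.norm_of_nonneg (idl_nonneg K n), Real.norm_eq_abs]
    congr 3
    simp
  have hshift : ∀ (n : ℕ), (∫ w : ℝ, |φ (w - Real.log n)| * Real.exp (-(s.re * w))) =
      Real.exp (-(s.re * Real.log n)) * ∫ u : ℝ, |φ u| * Real.exp (-(s.re * u)) := by
    intro n
    have h1 := integral_sub_right_eq_self (μ := volume)
      (fun u : ℝ => |φ u| * Real.exp (-(s.re * (u + Real.log n)))) (Real.log n)
    simp only [sub_add_cancel] at h1
    rw [h1, ← integral_const_mul]
    congr 1
    funext u
    rw [mul_add, neg_add, Real.exp_add]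
    ring
  have hsumm : Summable fun n => ∫ w : ℝ, ‖f n w‖ := by
    have h1 : ∀ n, (∫ w : ℝ, ‖f n w‖) =
        ‖LSeries.term (fun n => (Nat.card {I : Ideal (𝓞 K) // Ideal.absNorm I = n} : ℂ))
          (s.re : ℂ) n‖ * ∫ u : ℝ, |φ u| * Real.exp (-(s.re * u)) := by
      intro n
      simp only [hnorm]
      rw [integral_const_mul, hshift, ← mul_assoc]
      congr 1
      rcases eq_or_ne n 0 with rfl | hn
      · simp [idl]
      · rw [LSeries.norm_term_eq, if_neg hn, Complex.norm_natCast, Complex.ofReal_re]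
        unfold idl
        rw [if_neg hn, div_eq_mul_inv, ← Real.rpow_neg (by positivity),
          Real.rpow_def_of_pos (by positivity)]
        congr 2
        ring
    simp only [h1]
    exact hsum.norm.mul_right _
  have hmain := integral_tsum_of_summable_integral_norm hint hsumm
  have hL : (fun n => ∫ w : ℝ, f n w) = fun n =>
      LSeries.term (fun n => (Nat.card {I : Ideal (𝓞 K) // Ideal.absNorm I = n} : ℂ)) s n *
        lap φ s := by
    funext n
    simp only [hf]
    rw [integral_const_mul]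
    have h1 := integral_sub_right_eq_self (μ := volume)
      (fun u : ℝ => (φ u : ℂ) * Complex.exp (-(s * ((u + Real.log n : ℝ) : ℂ)))) (Real.log n)
    simp only [sub_add_cancel] at h1
    rw [h1]
    rcases eq_or_ne n 0 with rfl | hn
    · simp [idl]
    · have h2 : (∫ u : ℝ, (φ u : ℂ) * Complex.exp (-(s * ((u + Real.log n : ℝ) : ℂ)))) =
          Complex.exp (-(s * Real.log n)) * lap φ s := by
        unfold lap
        rw [← integral_const_mul]
        congr 1
        funext u
        push_cast
        rw [mul_add, neg_add, Complex.exp_add]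
        ring
      rw [h2, LSeries.term_of_ne_zero hn]
      unfold idl
      rw [if_neg hn, div_eq_mul_inv, ← Complex.cpow_neg,
        Complex.cpow_def_of_ne_zero (by exact_mod_cast hn), ← Complex.natCast_log]
      have h3 : (Real.log n : ℂ) * -s = -(s * Real.log n) := by ring
      rw [h3]
      push_cast
      ring
  rw [hL, tsum_mul_right] at hmain
  have hR : (fun w => ∑' n, f n w) = fun w : ℝ => (gg K φ w : ℂ) * Complex.exp (-(s * w)) := by
    funext w
    unfold gg
    rw [Complex.ofReal_tsum, ← tsum_mul_right]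
    refine tsum_congr fun n => ?_
    simp only [hf]
    push_cast
    ring
  rw [hR] at hmain
  rw [← hmain]
  rfl

omit hφ
omit [NumberField K] [Field K] in
/-- Laplace transforms of rapidly decreasing functions on the half line are entire. -/
theorem differentiable_half {E : ℝ → ℝ} (hE : Continuous E)
    (hb : ∀ A : ℕ, ∃ C : ℝ, ∀ w : ℝ, 0 ≤ w → |E w| ≤ C * Real.exp (-(A * w))) :
    (∀ s : ℂ, IntegrableOn (fun w : ℝ => (E w : ℂ) * Complex.exp (-(s * w))) (Ioi 0)) ∧
    Differentiable ℂ fun s : ℂ => ∫ w in Ioi (0 : ℝ), (E w : ℂ) * Complex.exp (-(s * w)) := by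
  have key : ∀ s₀ : ℂ, IntegrableOn (fun w : ℝ => (E w : ℂ) * Complex.exp (-(s₀ * w))) (Ioi 0) ∧
      DifferentiableAt ℂ (fun s : ℂ => ∫ w in Ioi (0 : ℝ), (E w : ℂ) *
        Complex.exp (-(s * w))) s₀ := by
    intro s₀
    obtain ⟨A, hA⟩ := exists_nat_gt (‖s₀‖ + 3)
    obtain ⟨C, hC⟩ := hb A
    have hC0 : 0 ≤ C := by
      have := (abs_nonneg _).trans (hC 0 le_rfl)
      simpa using this
    have hexp : ∀ (z : ℂ), ‖z - s₀‖ < 1 → ∀ w : ℝ, 0 ≤ w →
        ‖Complex.exp (-(z * w))‖ ≤ Real.exp ((‖s₀‖ + 1) * w) := by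
      intro z hz w hw
      rw [Complex.norm_exp]
      refine Real.exp_le_exp.2 ?_
      have hz' : ‖z‖ ≤ ‖s₀‖ + 1 := by
        calc ‖z‖ = ‖s₀ + (z - s₀)‖ := by congr 1; ring
          _ ≤ ‖s₀‖ + ‖z - s₀‖ := norm_add_le _ _
          _ ≤ ‖s₀‖ + 1 := by linarith
      calc (-(z * (w : ℂ))).re ≤ ‖-(z * (w : ℂ))‖ := Complex.re_le_norm _
        _ = ‖z‖ * w := by rw [norm_neg, norm_mul, Complex.norm_real, Real.norm_of_nonneg hw]
        _ ≤ (‖s₀‖ + 1) * w := mul_le_mul_of_nonneg_right hz' hw
    have hbd : ∀ w : ℝ, 0 ≤ w → |E w| * Real.exp ((‖s₀‖ + 1) * w) ≤ C * Real.exp (-(2 * w)) := by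
      intro w hw
      calc |E w| * Real.exp ((‖s₀‖ + 1) * w) ≤
            C * Real.exp (-(A * w)) * Real.exp ((‖s₀‖ + 1) * w) :=
            mul_le_mul_of_nonneg_right (hC w hw) (Real.exp_pos _).le
        _ = C * Real.exp (-(A * w) + (‖s₀‖ + 1) * w) := by rw [mul_assoc, ← Real.exp_add]
        _ ≤ C * Real.exp (-(2 * w)) := by
            refine mul_le_mul_of_nonneg_left (Real.exp_le_exp.2 ?_) hC0
            nlinarith
    have hcont : ∀ z : ℂ, Continuous fun w : ℝ => (E w : ℂ) * Complex.exp (-(z * w)) :=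
      fun z => by fun_prop
    have hint2 : IntegrableOn (fun w : ℝ => C * Real.exp (-(2 * w))) (Ioi 0) := by
      have e : (fun w : ℝ => C * Real.exp (-(2 * w))) = fun w => C * Real.exp (-2 * w) := by
        funext w
        rw [neg_mul]
      rw [e]
      exact (integrableOn_exp_mul_Ioi (a := -2) (by norm_num) 0).const_mul C
    have hint1 : IntegrableOn (fun w : ℝ => C * Real.exp (-(1 * w))) (Ioi 0) := by
      have e : (fun w : ℝ => C * Real.exp (-(1 * w))) = fun w => C * Real.exp (-1 * w) := by
        funext w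
        rw [neg_mul]
      rw [e]
      exact (integrableOn_exp_mul_Ioi (a := -1) (by norm_num) 0).const_mul C
    have hI : IntegrableOn (fun w : ℝ => (E w : ℂ) * Complex.exp (-(s₀ * w))) (Ioi 0) := by
      refine Integrable.mono' hint2 (hcont s₀).aestronglyMeasurable ?_
      refine (ae_restrict_iff' measurableSet_Ioi).2 (Eventually.of_forall fun w hw => ?_)
      have hw : 0 < w := hw
      rw [norm_mul, Complex.norm_real, Real.norm_eq_abs]
      exact (mul_le_mul_of_nonneg_left (hexp s₀ (by simp) w hw.le) (abs_nonneg _)).trans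
        (hbd w hw.le)
    refine ⟨hI, ?_⟩
    have h1 := hasDerivAt_integral_of_dominated_loc_of_deriv_le (𝕜 := ℂ)
      (μ := volume.restrict (Ioi (0 : ℝ)))
      (F := fun (z : ℂ) (w : ℝ) => (E w : ℂ) * Complex.exp (-(z * w)))
      (F' := fun (z : ℂ) (w : ℝ) => (-(w : ℂ)) * ((E w : ℂ) * Complex.exp (-(z * w))))
      (x₀ := s₀) (s := Metric.ball s₀ 1) (bound := fun w => C * Real.exp (-(1 * w)))
      (Metric.ball_mem_nhds s₀ one_pos) ?_ hI ?_ ?_ hint1 ?_
    · exact h1.2.differentiableAt
    · exact Eventually.of_forall fun z => (hcont z).aestronglyMeasurable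
    · have : Continuous fun w : ℝ => (-(w : ℂ)) * ((E w : ℂ) * Complex.exp (-(s₀ * w))) := by
        fun_prop
      exact this.aestronglyMeasurable
    · refine (ae_restrict_iff' measurableSet_Ioi).2 (Eventually.of_forall fun w hw z hz => ?_)
      have hw : 0 < w := hw
      have hz' : ‖z - s₀‖ < 1 := by rwa [Metric.mem_ball, dist_eq_norm] at hz
      rw [norm_mul, norm_mul, norm_neg, Complex.norm_real, Complex.norm_real,
        Real.norm_eq_abs, Real.norm_eq_abs, abs_of_pos hw]
      have h2 := (mul_le_mul_of_nonneg_left (hexp z hz' w hw.le) (abs_nonneg (E w))).trans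
        (hbd w hw.le)
      have h3 : w ≤ Real.exp w := by linarith [Real.add_one_le_exp w]
      calc w * (|E w| * ‖Complex.exp (-(z * w))‖) ≤ Real.exp w * (C * Real.exp (-(2 * w))) :=
            mul_le_mul h3 h2 (by positivity) (Real.exp_pos _).le
        _ = C * Real.exp (-(1 * w)) := by
            rw [mul_left_comm, ← Real.exp_add]
            congr 2
            ring
    · refine Eventually.of_forall fun w z _ => ?_
      have h2 : HasDerivAt (fun z : ℂ => -(z * (w : ℂ))) (-(1 * (w : ℂ))) z :=
        ((hasDerivAt_id z).mul_const (w : ℂ)).neg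
      have h3 := (h2.cexp).const_mul (E w : ℂ)
      refine h3.congr_deriv ?_
      ring
  exact ⟨fun s => (key s).1, fun s => (key s).2⟩

/-- **MODULE M.** -/
theorem zetaPhi (hS : SmoothCount K) : ZetaPhi K := by
  intro φ hφ
  obtain ⟨κ, hκ⟩ := hS φ hφ
  have hg := continuous_gg K hφ
  set E : ℝ → ℝ := fun w => gg K φ w - κ * Real.exp w with hE
  have hEc : Continuous E := by fun_prop
  obtain ⟨hint, hdiff⟩ := differentiable_half hEc (fun A => by
    obtain ⟨C, hC⟩ := hκ A
    refine ⟨C, fun w hw => ?_⟩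
    have h1 := hC (Real.exp w) (Real.one_le_exp hw)
    rw [Real.log_exp, ← Real.exp_nat_mul, ← Real.exp_neg] at h1
    exact h1)
  refine ⟨fun s => κ + (s - 1) * ∫ w in Ioi (0 : ℝ), (E w : ℂ) * Complex.exp (-(s * w)), ?_, ?_⟩
  · exact (differentiable_const _).add ((differentiable_id.sub_const _).mul hdiff)
  · intro s hs
    have hne : s - 1 ≠ 0 := by
      intro h
      have : s.re = 1 := by
        have := congrArg Complex.re (sub_eq_zero.1 h)
        simpa using this
      linarith
    have hre : (1 - s).re < 0 := by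
      rw [Complex.sub_re, Complex.one_re]; linarith
    have h1 := transform K hφ hs
    have h2 : (∫ w : ℝ, (gg K φ w : ℂ) * Complex.exp (-(s * w))) =
        ∫ w in Ioi (0 : ℝ), (gg K φ w : ℂ) * Complex.exp (-(s * w)) := by
      symm
      apply setIntegral_eq_integral_of_forall_compl_eq_zero
      intro w hw
      rw [mem_Ioi, not_lt] at hw
      rw [gg_zero K hφ hw]
      simp
    have h3 : (∫ w in Ioi (0 : ℝ), (gg K φ w : ℂ) * Complex.exp (-(s * w))) =
        κ * (∫ w in Ioi (0 : ℝ), Complex.exp ((1 - s) * w)) +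
        ∫ w in Ioi (0 : ℝ), (E w : ℂ) * Complex.exp (-(s * w)) := by
      rw [← integral_const_mul, ← integral_add ((integrableOn_exp_mul_complex_Ioi hre 0).const_mul _)
        (hint s)]
      congr 1
      funext w
      simp only [hE]
      push_cast
      have h4 : (1 - s) * (w : ℂ) = w + -(s * w) := by ring
      rw [h4, Complex.exp_add]
      ring
    rw [integral_exp_mul_complex_Ioi hre] at h3
    have h5 : (∫ u : ℝ, (φ u : ℂ) * Complex.exp (-(s * u))) = lap φ s := rfl
    rw [h5, mul_assoc, ← h1, h2, h3]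
    have h6 : (1 - s) ≠ 0 := by
      intro h; apply hne
      have : s - 1 = -(1 - s) := by ring
      rw [this, h, neg_zero]
    simp only [Complex.ofReal_zero, mul_zero, Complex.exp_zero]
    field_simp
    ring

end Pool.Agent.MPfb225e.Mellin
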