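import Mathlib

/-!
MP_fb225e_nt, module S, part 2: a smooth partition of unity under integer translations, and
sums over fibres.
-/

namespace Pool.Agent.MPfb225e.Unity

/-- A smooth function with support in `[-1, 1]` whose integer translates sum to `1`. -/
noncomputable def th (x : ℝ) : ℝ := Real.smoothTransition (x + 1) - Real.smoothTransition x

theorem th_contDiff : ContDiff ℝ ((⊤ : ℕ∞) : WithTop ℕ∞) th := by
  unfold th
  exact (Real.smoothTransition.contDiff.comp (contDiff_id.add contDiff_const)).sub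
    Real.smoothTransition.contDiff

theorem th_eq_zero {x : ℝ} (h : 1 ≤ |x|) : th x = 0 := by
  unfold th
  rcases le_abs'.mp h with h1 | h1
  · rw [Real.smoothTransition.zero_of_nonpos (by linarith),
      Real.smoothTransition.zero_of_nonpos (by linarith), sub_zero]
  · rw [Real.smoothTransition.one_of_one_le (by linarith),
      Real.smoothTransition.one_of_one_le h1, sub_self]

theorem th_sum_pair (x : ℝ) :
    ∑ k ∈ ({-⌊x⌋, -⌊x⌋ - 1} : Finset ℤ), th (x + k) = 1 := by
  have h0 := Int.floor_le x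
  have h1 := Int.lt_floor_add_one x
  rw [Finset.sum_pair (by omega)]
  push_cast
  unfold th
  rw [Real.smoothTransition.one_of_one_le (x := x + -(⌊x⌋ : ℝ) + 1) (by linarith),
    Real.smoothTransition.zero_of_nonpos (x := x + (-(⌊x⌋ : ℝ) - 1)) (by linarith),
    show x + (-(⌊x⌋ : ℝ) - 1) + 1 = x + -(⌊x⌋ : ℝ) by ring]
  ring

theorem th_ne_zero_mem {x : ℝ} {k : ℤ} (h : th (x + k) ≠ 0) :
    k ∈ ({-⌊x⌋, -⌊x⌋ - 1} : Finset ℤ) := by
  have h1 : |x + k| < 1 := by
    by_contra h2
    exact h (th_eq_zero (not_lt.mp h2))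
  rw [abs_lt] at h1
  have h2 := Int.floor_le x
  have h3 := Int.lt_floor_add_one x
  have h4 : (k : ℝ) < -(⌊x⌋ : ℝ) + 1 := by linarith
  have h5 : -(⌊x⌋ : ℝ) - 2 < k := by linarith
  have h4' : k < -⌊x⌋ + 1 := by exact_mod_cast h4
  have h5' : -⌊x⌋ - 2 < k := by exact_mod_cast h5
  rw [Finset.mem_insert, Finset.mem_singleton]
  omega

theorem hasSum_prod_th {ι : Type*} [Fintype ι] (x : ι → ℝ) :
    HasSum (fun k : ι → ℤ => ∏ i, th (x i + k i)) 1 := by
  classical
  have h1 : ∑ k ∈ Fintype.piFinset (fun i => ({-⌊x i⌋, -⌊x i⌋ - 1} : Finset ℤ)),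
      ∏ i, th (x i + k i) = 1 := by
    rw [← Finset.prod_univ_sum (fun i => ({-⌊x i⌋, -⌊x i⌋ - 1} : Finset ℤ))
      (fun i (k : ℤ) => th (x i + k))]
    exact Finset.prod_eq_one fun i _ => th_sum_pair (x i)
  rw [← h1]
  refine hasSum_sum_of_ne_finset_zero fun k hk => ?_
  by_contra h
  apply hk
  rw [Fintype.mem_piFinset]
  intro i
  exact th_ne_zero_mem (Finset.prod_ne_zero_iff.mp h i (Finset.mem_univ i))

/-- Summation over the fibres of a map to `ℕ`. -/
theorem tsum_fiber {ι : Type*} (f : ι → ℕ) (F : ℕ → ℝ) (h : Summable fun i => F (f i)) :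
    ∑' i, F (f i) = ∑' n : ℕ, (Nat.card {i // f i = n} : ℝ) * F n := by
  rw [← (Equiv.sigmaFiberEquiv f).tsum_eq]
  have h' : Summable fun c => F (f ((Equiv.sigmaFiberEquiv f) c)) :=
    (Equiv.sigmaFiberEquiv f).summable_iff.mpr h
  rw [h'.tsum_sigma]
  refine tsum_congr fun n => ?_
  have : ∀ c : {i // f i = n}, F (f ((Equiv.sigmaFiberEquiv f) ⟨n, c⟩)) = F n := by
    intro c
    rw [Equiv.sigmaFiberEquiv_apply]
    exact congrArg F c.2
  simp_rw [this]
  rw [tsum_const, nsmul_eq_mul]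

end Pool.Agent.MPfb225e.Unity
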