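import Mathlib
import Pool.Agent.Lib.MP_fb225e_nt.Simple.Interface
import Pool.Agent.Lib.MP_fb225e_nt.Simple.Unity

/-!
MP_fb225e_nt, module S, part 3: the smooth weight on the mixed space.
-/

namespace Pool.Agent.MPfb225e.Bump

open NumberField NumberField.InfinitePlace NumberField.mixedEmbedding
  NumberField.mixedEmbedding.fundamentalCone NumberField.Units NumberField.Units.dirichletUnitTheorem
  MeasureTheory Module

universe u

variable {K : Type u} [Field K] [NumberField K]

open scoped Classical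

/-- The coordinates of `logMap x` in the basis of the unit lattice. -/
noncomputable def coord (x : mixedSpace K) (i : Fin (rank K)) : ℝ :=
  ((basisUnitLattice K).ofZLatticeBasis ℝ (unitLattice K)).repr (logMap x) i

/-- The weight. -/
noncomputable def g (φ : ℝ → ℝ) (x : mixedSpace K) : ℝ :=
  if mixedEmbedding.norm x = 0 then 0
  else (∏ i, Unity.th (coord x i)) * φ (-Real.log (mixedEmbedding.norm x))

theorem contDiffAt_log_normAtPlace (w : InfinitePlace K) {x : mixedSpace K}
    (hx : normAtPlace w x ≠ 0) :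
    ContDiffAt ℝ ((⊤ : ℕ∞) : WithTop ℕ∞) (fun y : mixedSpace K => Real.log (normAtPlace w y)) x := by
  rcases w.isReal_or_isComplex with hw | hw
  · have h1 : (fun y : mixedSpace K => Real.log (normAtPlace w y)) =
        fun y : mixedSpace K => Real.log (y.1 ⟨w, hw⟩) := by
      funext y
      rw [normAtPlace_apply_of_isReal hw, Real.norm_eq_abs, Real.log_abs]
    rw [h1]
    rw [normAtPlace_apply_of_isReal hw] at hx
    have h2 : ContDiff ℝ ((⊤ : ℕ∞) : WithTop ℕ∞) (fun y : mixedSpace K => y.1 ⟨w, hw⟩) :=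
      (contDiff_apply ℝ ℝ (⟨w, hw⟩ : {w : InfinitePlace K // IsReal w})).comp contDiff_fst
    exact h2.contDiffAt.log (norm_ne_zero_iff.mp hx)
  · have h1 : (fun y : mixedSpace K => Real.log (normAtPlace w y)) =
        fun y : mixedSpace K => Real.log ‖y.2 ⟨w, hw⟩‖ := by
      funext y
      rw [normAtPlace_apply_of_isComplex hw]
    rw [h1]
    rw [normAtPlace_apply_of_isComplex hw] at hx
    have h2 : ContDiff ℝ ((⊤ : ℕ∞) : WithTop ℕ∞) (fun y : mixedSpace K => y.2 ⟨w, hw⟩) :=
      (contDiff_apply ℝ ℂ (⟨w, hw⟩ : {w : InfinitePlace K // IsComplex w})).comp contDiff_snd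
    exact (h2.contDiffAt.norm ℝ (norm_ne_zero_iff.mp hx)).log hx

theorem log_norm_eq {x : mixedSpace K} (hx : mixedEmbedding.norm x ≠ 0) :
    Real.log (mixedEmbedding.norm x) = ∑ w, (mult w : ℝ) * Real.log (normAtPlace w x) := by
  rw [mixedEmbedding.norm_apply, Real.log_prod]
  · exact Finset.sum_congr rfl fun w _ => by rw [Real.log_pow]
  · intro w _
    exact pow_ne_zero _ (mixedEmbedding.norm_ne_zero_iff.mp hx w)

theorem contDiffAt_log_norm {x : mixedSpace K} (hx : mixedEmbedding.norm x ≠ 0) :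
    ContDiffAt ℝ ((⊤ : ℕ∞) : WithTop ℕ∞)
      (fun y : mixedSpace K => Real.log (mixedEmbedding.norm y)) x := by
  have h1 : ContDiffAt ℝ ((⊤ : ℕ∞) : WithTop ℕ∞)
      (fun y : mixedSpace K => ∑ w, (mult w : ℝ) * Real.log (normAtPlace w y)) x :=
    ContDiffAt.sum fun w _ => contDiffAt_const.mul
      (contDiffAt_log_normAtPlace w (mixedEmbedding.norm_ne_zero_iff.mp hx w))
  refine h1.congr_of_eventuallyEq ?_
  have h2 : ∀ᶠ y in nhds x, mixedEmbedding.norm y ≠ 0 :=
    (mixedEmbedding.continuous_norm K).continuousAt.eventually_ne hx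
  filter_upwards [h2] with y hy
  exact log_norm_eq hy

theorem contDiffAt_coord (i : Fin (rank K)) {x : mixedSpace K} (hx : mixedEmbedding.norm x ≠ 0) :
    ContDiffAt ℝ ((⊤ : ℕ∞) : WithTop ℕ∞) (fun y : mixedSpace K => coord y i) x := by
  have h1 : ContDiffAt ℝ ((⊤ : ℕ∞) : WithTop ℕ∞) (fun y : mixedSpace K => logMap y) x := by
    rw [contDiffAt_pi]
    intro w
    unfold logMap
    exact contDiffAt_const.mul ((contDiffAt_log_normAtPlace _
      (mixedEmbedding.norm_ne_zero_iff.mp hx w)).sub ((contDiffAt_log_norm hx).mul contDiffAt_const))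
  have h2 : ContDiff ℝ ((⊤ : ℕ∞) : WithTop ℕ∞) (fun v : logSpace K =>
      ((basisUnitLattice K).ofZLatticeBasis ℝ (unitLattice K)).repr v i) := by
    have := (LinearMap.toContinuousLinearMap
      (((basisUnitLattice K).ofZLatticeBasis ℝ (unitLattice K)).coord i)).contDiff
      (n := ((⊤ : ℕ∞) : WithTop ℕ∞))
    exact this
  exact h2.contDiffAt.comp x h1

/-- On the support of `g φ` all the valuations are bounded. -/
theorem exists_bound {φ : ℝ → ℝ} (hφ : HasCompactSupport φ) :
    ∃ M : ℝ, 0 ≤ M ∧ ∀ x : mixedSpace K, g φ x ≠ 0 → ∀ w : InfinitePlace K,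
      normAtPlace w x ≠ 0 ∧ |Real.log (normAtPlace w x)| ≤ M := by
  obtain ⟨R, hR⟩ := hφ.isCompact.isBounded.exists_norm_le
  set R' := max R 0 with hR'
  set b := (basisUnitLattice K).ofZLatticeBasis ℝ (unitLattice K) with hb
  set S : ℝ := ∑ i, ‖b i‖ with hS
  have hS0 : 0 ≤ S := Finset.sum_nonneg fun i _ => norm_nonneg _
  have hR0 : 0 ≤ R' := le_max_right _ _
  set c : ℝ := (Fintype.card (InfinitePlace K) : ℝ) with hc
  have hc0 : 0 ≤ c := by positivity
  refine ⟨R' + (S + R') + 2 * c * (S + R'), by positivity, fun x hx => ?_⟩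
  have hx0 : mixedEmbedding.norm x ≠ 0 := by
    intro h
    apply hx
    rw [g, if_pos h]
  rw [g, if_neg hx0] at hx
  have h1 := left_ne_zero_of_mul hx
  have h2 := right_ne_zero_of_mul hx
  have h3 : |Real.log (mixedEmbedding.norm x)| ≤ R' := by
    have := hR _ (subset_tsupport φ h2)
    rw [norm_neg, Real.norm_eq_abs] at this
    exact this.trans (le_max_left _ _)
  have h4 : ∀ i, |coord x i| ≤ 1 := by
    intro i
    by_contra h
    exact (Finset.prod_ne_zero_iff.mp h1 i (Finset.mem_univ i)) (Unity.th_eq_zero (not_le.mp h).le)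
  have h5 : ‖logMap x‖ ≤ S := by
    rw [← b.sum_repr (logMap x)]
    refine (norm_sum_le _ _).trans (Finset.sum_le_sum fun i _ => ?_)
    rw [_root_.norm_smul]
    calc ‖b.repr (logMap x) i‖ * ‖b i‖ ≤ 1 * ‖b i‖ :=
          mul_le_mul_of_nonneg_right (h4 i) (norm_nonneg _)
      _ = ‖b i‖ := one_mul _
  have hn1 : (1 : ℝ) ≤ finrank ℚ K := by exact_mod_cast (finrank_pos : 0 < finrank ℚ K)
  have hn2 : ((finrank ℚ K : ℝ))⁻¹ ≤ 1 := inv_le_one_of_one_le₀ hn1
  have hn3 : (0 : ℝ) ≤ ((finrank ℚ K : ℝ))⁻¹ := by positivity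
  have h6 : |Real.log (mixedEmbedding.norm x) * (finrank ℚ K : ℝ)⁻¹| ≤ R' := by
    rw [abs_mul, abs_of_nonneg hn3]
    calc |Real.log (mixedEmbedding.norm x)| * (finrank ℚ K : ℝ)⁻¹ ≤ R' * 1 :=
          mul_le_mul h3 hn2 hn3 hR0
      _ = R' := mul_one _
  have hmult : ∀ w : InfinitePlace K, (1 : ℝ) ≤ mult w ∧ (mult w : ℝ) ≤ 2 := by
    intro w
    constructor
    · exact_mod_cast mult_pos
    · unfold mult
      split_ifs <;> norm_num
  have h7 : ∀ w : InfinitePlace K, w ≠ w₀ → |Real.log (normAtPlace w x)| ≤ S + R' := by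
    intro w hw
    have h8 : ‖logMap x ⟨w, hw⟩‖ ≤ S := (norm_le_pi_norm _ _).trans h5
    rw [logMap_apply, norm_mul, Real.norm_of_nonneg (by positivity), Real.norm_eq_abs] at h8
    have h9 : |Real.log (normAtPlace w x) -
        Real.log (mixedEmbedding.norm x) * (finrank ℚ K : ℝ)⁻¹| ≤ S := by
      refine le_trans ?_ h8
      exact le_mul_of_one_le_left (abs_nonneg _) (hmult w).1
    calc |Real.log (normAtPlace w x)| = |(Real.log (normAtPlace w x) -
          Real.log (mixedEmbedding.norm x) * (finrank ℚ K : ℝ)⁻¹) +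
          Real.log (mixedEmbedding.norm x) * (finrank ℚ K : ℝ)⁻¹| := by congr 1; ring
      _ ≤ S + R' := (abs_add_le _ _).trans (add_le_add h9 h6)
  intro w
  refine ⟨mixedEmbedding.norm_ne_zero_iff.mp hx0 w, ?_⟩
  by_cases hw : w = w₀
  · have h10 := log_norm_eq hx0
    rw [← Finset.add_sum_erase _ _ (Finset.mem_univ w)] at h10
    have h11 : (mult w : ℝ) * Real.log (normAtPlace w x) = Real.log (mixedEmbedding.norm x) -
        ∑ v ∈ Finset.univ.erase w, (mult v : ℝ) * Real.log (normAtPlace v x) := by linarith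
    have h12 : |∑ v ∈ Finset.univ.erase w, (mult v : ℝ) * Real.log (normAtPlace v x)| ≤
        2 * c * (S + R') := by
      refine (Finset.abs_sum_le_sum_abs _ _).trans ?_
      calc ∑ v ∈ Finset.univ.erase w, |(mult v : ℝ) * Real.log (normAtPlace v x)|
          ≤ ∑ v ∈ Finset.univ.erase w, 2 * (S + R') := by
            refine Finset.sum_le_sum fun v hv => ?_
            rw [abs_mul, abs_of_nonneg (by linarith [(hmult v).1])]
            exact mul_le_mul (hmult v).2 (h7 v (hw ▸ Finset.ne_of_mem_erase hv)) (abs_nonneg _)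
              (by norm_num)
        _ = (Finset.univ.erase w).card * (2 * (S + R')) := by
            rw [Finset.sum_const, nsmul_eq_mul]
        _ ≤ c * (2 * (S + R')) := by
            refine mul_le_mul_of_nonneg_right ?_ (by positivity)
            rw [hc]
            exact_mod_cast Finset.card_le_univ _
        _ = 2 * c * (S + R') := by ring
    calc |Real.log (normAtPlace w x)| ≤ |(mult w : ℝ) * Real.log (normAtPlace w x)| := by
          rw [abs_mul, abs_of_nonneg (a := (mult w : ℝ)) (by linarith [(hmult w).1])]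
          exact le_mul_of_one_le_left (abs_nonneg _) (hmult w).1
      _ ≤ R' + 2 * c * (S + R') := by
          rw [h11]
          exact (abs_sub _ _).trans (add_le_add h3 h12)
      _ ≤ R' + (S + R') + 2 * c * (S + R') := by linarith
  · have : 0 ≤ 2 * c * (S + R') := by positivity
    linarith [h7 w hw]

theorem hasCompactSupport_g {φ : ℝ → ℝ} (hφ : HasCompactSupport φ) :
    HasCompactSupport (g φ : mixedSpace K → ℝ) := by
  obtain ⟨M, hM0, hM⟩ := exists_bound (K := K) hφ
  refine HasCompactSupport.intro (isCompact_closedBall (0 : mixedSpace K) (Real.exp M)) ?_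
  intro x hx
  by_contra h
  apply hx
  rw [Metric.mem_closedBall, dist_zero_right, norm_eq_sup'_normAtPlace]
  refine Finset.sup'_le _ _ fun w _ => ?_
  obtain ⟨h1, h2⟩ := hM x h w
  have h3 : 0 < normAtPlace w x := lt_of_le_of_ne (normAtPlace_nonneg _ _) (Ne.symm h1)
  rw [← Real.log_le_iff_le_exp h3]
  exact (le_abs_self _).trans h2

theorem contDiff_g {φ : ℝ → ℝ} (hφ : Weight φ) :
    ContDiff ℝ ((⊤ : ℕ∞) : WithTop ℕ∞) (g φ : mixedSpace K → ℝ) := by
  rw [contDiff_iff_contDiffAt]
  intro x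
  by_cases hx : mixedEmbedding.norm x = 0
  · obtain ⟨M, hM0, hM⟩ := exists_bound (K := K) hφ.compact
    obtain ⟨w, hw⟩ := mixedEmbedding.norm_eq_zero_iff.mp hx
    have h1 : ∀ᶠ y in nhds x, normAtPlace w y < Real.exp (-M) := by
      have := (continuous_normAtPlace w).continuousAt (x := x)
      refine this.eventually_lt_const ?_
      rw [hw]
      exact Real.exp_pos _
    refine (contDiffAt_const (c := (0 : ℝ))).congr_of_eventuallyEq ?_
    filter_upwards [h1] with y hy
    by_contra h
    obtain ⟨h2, h3⟩ := hM y h w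
    have h4 : 0 < normAtPlace w y := lt_of_le_of_ne (normAtPlace_nonneg _ _) (Ne.symm h2)
    have h5 := (Real.log_lt_iff_lt_exp h4).mpr hy
    linarith [neg_abs_le (Real.log (normAtPlace w y))]
  · have h1 : ContDiffAt ℝ ((⊤ : ℕ∞) : WithTop ℕ∞) (fun y : mixedSpace K =>
        (∏ i, Unity.th (coord y i)) * φ (-Real.log (mixedEmbedding.norm y))) x := by
      refine ContDiffAt.mul ?_ ?_
      · exact contDiffAt_prod fun i _ => Unity.th_contDiff.contDiffAt.comp x (contDiffAt_coord i hx)
      · exact hφ.smooth.contDiffAt.comp x (contDiffAt_log_norm hx).neg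
    refine h1.congr_of_eventuallyEq ?_
    have h2 : ∀ᶠ y in nhds x, mixedEmbedding.norm y ≠ 0 :=
      (mixedEmbedding.continuous_norm K).continuousAt.eventually_ne hx
    filter_upwards [h2] with y hy
    rw [g, if_neg hy]

/-- The behaviour under dilations. -/
theorem g_smul (φ : ℝ → ℝ) {t X : ℝ} (ht : 0 < t) (hX : t ^ finrank ℚ K = X) (x : mixedSpace K) :
    g φ (t⁻¹ • x) = if mixedEmbedding.norm x = 0 then 0 else
      (∏ i, Unity.th (coord x i)) * φ (Real.log X - Real.log (mixedEmbedding.norm x)) := by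
  have h1 : mixedEmbedding.norm (t⁻¹ • x) = X⁻¹ * mixedEmbedding.norm x := by
    rw [mixedEmbedding.norm_smul, abs_of_pos (inv_pos.mpr ht), inv_pow, hX]
  have hX0 : 0 < X := by rw [← hX]; positivity
  by_cases hx : mixedEmbedding.norm x = 0
  · rw [g, if_pos (by rw [h1, hx, mul_zero]), if_pos hx]
  · rw [g, if_neg (by rw [h1]; exact mul_ne_zero (inv_ne_zero hX0.ne') hx), if_neg hx, h1,
      Real.log_mul (inv_ne_zero hX0.ne') hx, Real.log_inv]
    unfold coord
    rw [logMap_real_smul hx (inv_ne_zero ht.ne')]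
    congr 2
    ring

end Pool.Agent.MPfb225e.Bump
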