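import Mathlib
import Pool.Agent.Lib.MP_fb225e_nt.LatticeCount

/-!
MP_fb225e_nt, module S, part 1: sums of smooth compactly supported functions over dilated lattices.
-/

namespace Pool.Agent.MPfb225e.LatSum

open MeasureTheory Module ZSpan Submodule

variable {E : Type*} [NormedAddCommGroup E] [NormedSpace ℝ E] [FiniteDimensional ℝ E]
  [MeasurableSpace E] [BorelSpace E]

omit [NormedSpace ℝ E] [FiniteDimensional ℝ E] [MeasurableSpace E] [BorelSpace E] in
theorem exists_radius {f : E → ℝ} (hf : HasCompactSupport f) :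
    ∃ R : ℝ, 0 < R ∧ ∀ x ∈ tsupport f, ‖x‖ ≤ R := by
  obtain ⟨R, hR⟩ := hf.isCompact.isBounded.exists_norm_le
  exact ⟨max R 1, by positivity, fun x hx => (hR x hx).trans (le_max_left _ _)⟩

omit [MeasurableSpace E] [BorelSpace E] in
theorem finite_norm_le (L : Submodule ℤ E) [DiscreteTopology L] (B : ℝ) :
    {α : L | ‖(α : E)‖ ≤ B}.Finite := by
  have hcl : IsClosed (L : Set E) := by
    have : DiscreteTopology L.toAddSubgroup := inferInstanceAs (DiscreteTopology L)
    exact AddSubgroup.isClosed_of_discrete (H := L.toAddSubgroup)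
  have hb : Bornology.IsBounded (Metric.closedBall (0 : E) B) := Metric.isBounded_closedBall
  have h := Metric.finite_isBounded_inter_isClosed (s := (L : Set E)) ⟨inferInstanceAs (DiscreteTopology L)⟩ hb hcl
  refine Set.Finite.of_finite_image (f := Subtype.val) (h.subset ?_) Subtype.val_injective.injOn
  rintro _ ⟨α, hα, rfl⟩
  exact ⟨by simpa using hα, α.2⟩

theorem base (μ : Measure E) [μ.IsAddHaarMeasure] (L : Submodule ℤ E) [DiscreteTopology L]
    [IsZLattice ℝ L] {f : E → ℝ} (hfc : Continuous f) (hf : HasCompactSupport f) :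
    ∃ C : ℝ, 0 ≤ C ∧ ∀ t : ℝ, 1 ≤ t → ∀ u : E,
      |∑' α : L, f (t⁻¹ • ((α : E) + u))| ≤ C * t ^ finrank ℝ E := by
  classical
  obtain ⟨R, hR, hcount⟩ := Lattice.count μ L
  obtain ⟨R₀, hR₀, hsupp⟩ := exists_radius hf
  obtain ⟨M, hM⟩ := hfc.bounded_above_of_compact_support hf
  have hM0 : 0 ≤ M := (norm_nonneg _).trans (hM 0)
  set n := finrank ℝ E with hn
  set cov := ZLattice.covolume L μ with hcov
  have hcov0 : 0 < cov := ZLattice.covolume_pos L μ
  set V : ℝ := (μ (Metric.ball (0 : E) 1)).toReal with hV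
  have hV0 : 0 ≤ V := ENNReal.toReal_nonneg
  refine ⟨M * ((R₀ + R) ^ n * V / cov), by positivity, fun t ht u => ?_⟩
  have ht0 : 0 < t := by linarith
  -- the relevant lattice points
  set S : Set E := Metric.closedBall (-u) (t * R₀) with hS
  have hSb : Bornology.IsBounded S := Metric.isBounded_closedBall
  obtain ⟨-, h1⟩ := hcount ∅ S (Metric.closedBall (-u) (t * R₀ + R)) hSb
    (measure_closedBall_lt_top).ne
    (by
      intro x hx p hp
      rw [hS, Metric.mem_closedBall, dist_eq_norm] at hx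
      rw [Metric.mem_closedBall, dist_eq_norm]
      calc ‖x + p - -u‖ = ‖(x - -u) + p‖ := by congr 1; abel
        _ ≤ ‖x - -u‖ + ‖p‖ := norm_add_le _ _
        _ ≤ t * R₀ + R := add_le_add hx hp)
    (by intro x hx; exact absurd hx (Set.notMem_empty x))
  have hfinS : {α : L | (α : E) ∈ S}.Finite := by
    refine (finite_norm_le L (t * R₀ + ‖u‖)).subset ?_
    intro α hα
    have hα' : ‖(α : E) - -u‖ ≤ t * R₀ := by
      have := hα
      rw [Set.mem_ofPred_eq, hS, Metric.mem_closedBall, dist_eq_norm] at this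
      exact this
    show ‖(α : E)‖ ≤ t * R₀ + ‖u‖
    calc ‖(α : E)‖ = ‖((α : E) - -u) + (-u)‖ := by congr 1; abel
      _ ≤ ‖(α : E) - -u‖ + ‖-u‖ := norm_add_le _ _
      _ ≤ t * R₀ + ‖u‖ := by rw [norm_neg]; linarith
  have hcardS : (S ∩ L).ncard = hfinS.toFinset.card := by
    rw [← Set.ncard_eq_toFinset_card _ hfinS]
    have : S ∩ (L : Set E) = Subtype.val '' {α : L | (α : E) ∈ S} := by
      ext x
      constructor
      · rintro ⟨h2, h3⟩
        exact ⟨⟨x, h3⟩, h2, rfl⟩
      · rintro ⟨α, h2, rfl⟩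
        exact ⟨h2, α.2⟩
    rw [this, Set.ncard_image_of_injective _ Subtype.val_injective]
  have hvol : (μ (Metric.closedBall (-u) (t * R₀ + R))).toReal = (t * R₀ + R) ^ n * V := by
    rw [Measure.addHaar_closedBall μ _ (by positivity), ENNReal.toReal_mul,
      ENNReal.toReal_ofReal (by positivity)]
  rw [tsum_eq_sum (s := hfinS.toFinset)]
  · have h2 : |∑ α ∈ hfinS.toFinset, f (t⁻¹ • ((α : E) + u))| ≤ hfinS.toFinset.card * M := by
      refine (Finset.abs_sum_le_sum_abs _ _).trans ?_
      calc ∑ α ∈ hfinS.toFinset, |f (t⁻¹ • ((α : E) + u))| ≤ ∑ α ∈ hfinS.toFinset, M :=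
            Finset.sum_le_sum fun α _ => hM _
        _ = hfinS.toFinset.card * M := by rw [Finset.sum_const, nsmul_eq_mul]
    refine h2.trans ?_
    rw [hcardS, hvol] at h1
    have h3 : (hfinS.toFinset.card : ℝ) ≤ (t * R₀ + R) ^ n * V / cov := by
      rw [le_div_iff₀ hcov0]
      exact h1
    have h4 : (t * R₀ + R) ^ n ≤ t ^ n * (R₀ + R) ^ n := by
      rw [← mul_pow]
      refine pow_le_pow_left₀ (by positivity) ?_ n
      nlinarith
    calc (hfinS.toFinset.card : ℝ) * M ≤ ((t * R₀ + R) ^ n * V / cov) * M :=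
          mul_le_mul_of_nonneg_right h3 hM0
      _ ≤ (t ^ n * (R₀ + R) ^ n * V / cov) * M := by
          refine mul_le_mul_of_nonneg_right ?_ hM0
          refine div_le_div_of_nonneg_right ?_ hcov0.le
          exact mul_le_mul_of_nonneg_right h4 hV0
      _ = M * ((R₀ + R) ^ n * V / cov) * t ^ n := by ring
  · intro α hα
    by_contra h
    apply hα
    rw [Set.Finite.mem_toFinset]
    have h5 := hsupp _ (subset_tsupport f h)
    rw [norm_smul, Real.norm_of_nonneg (inv_nonneg.mpr ht0.le), inv_mul_le_iff₀ ht0] at h5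
    show (α : E) ∈ S
    rw [hS, Metric.mem_closedBall, dist_eq_norm, sub_neg_eq_add]
    exact h5

/-- The derivative in the direction `b` of a smooth compactly supported function. -/
theorem deriv_props {f : E → ℝ} (hf : ContDiff ℝ ((⊤ : ℕ∞) : WithTop ℕ∞) f)
    (hc : HasCompactSupport f) (μ : Measure E) [μ.IsAddHaarMeasure] (v : E) :
    ContDiff ℝ ((⊤ : ℕ∞) : WithTop ℕ∞) (fun x => fderiv ℝ f x v) ∧
    HasCompactSupport (fun x => fderiv ℝ f x v) ∧ ∫ x, fderiv ℝ f x v ∂μ = 0 := by
  have h1 : ContDiff ℝ ((⊤ : ℕ∞) : WithTop ℕ∞) (fun x => fderiv ℝ f x v) := by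
    have := hf.fderiv_right (m := ((⊤ : ℕ∞) : WithTop ℕ∞)) (by simp)
    exact this.clm_apply contDiff_const
  have h2 : HasCompactSupport (fun x => fderiv ℝ f x v) := hc.fderiv_apply (𝕜 := ℝ) v
  refine ⟨h1, h2, ?_⟩
  have h3 := integral_mul_fderiv_eq_neg_fderiv_mul_of_integrable (μ := μ) (𝕜 := ℝ)
    (f := fun _ : E => (1 : ℝ)) (g := f) (v := v) (by simp)
    (by simpa using h1.continuous.integrable_of_hasCompactSupport h2)
    (by simpa using hf.continuous.integrable_of_hasCompactSupport hc)
    (fun x _ => differentiableAt_const _)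
    (fun x _ => (hf.differentiable (by simp)).differentiableAt)
  simpa using h3

theorem latSum (μ : Measure E) [μ.IsAddHaarMeasure] (L : Submodule ℤ E) [DiscreteTopology L]
    [IsZLattice ℝ L] (m : ℕ) : ∀ f : E → ℝ, ContDiff ℝ ((⊤ : ℕ∞) : WithTop ℕ∞) f →
    HasCompactSupport f →
    ∃ C : ℝ, 0 ≤ C ∧ ∀ t : ℝ, 1 ≤ t → ∀ u : E,
      |∑' α : L, f (t⁻¹ • ((α : E) + u)) -
        t ^ finrank ℝ E * (∫ x, f x ∂μ) / ZLattice.covolume L μ| ≤
      C * t ^ finrank ℝ E * (t ^ m)⁻¹ := by
  classical
  induction m with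
  | zero =>
    intro f hf hc
    obtain ⟨C, hC, h⟩ := base μ L hf.continuous hc
    have hcov0 : 0 < ZLattice.covolume L μ := ZLattice.covolume_pos L μ
    refine ⟨C + |∫ x, f x ∂μ| / ZLattice.covolume L μ, by positivity, fun t ht u => ?_⟩
    have ht0 : 0 < t := by linarith
    refine (abs_sub _ _).trans ?_
    rw [pow_zero, inv_one, mul_one, add_mul, abs_div, abs_mul, abs_of_pos hcov0,
      abs_of_pos (pow_pos ht0 _)]
    refine add_le_add (h t ht u) (le_of_eq ?_)
    ring
  | succ m ih =>
    intro f hf hc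
    set b₀ := Free.chooseBasis ℤ L with hb₀
    set b := b₀.ofZLatticeBasis ℝ with hb
    have : Finite (Free.ChooseBasisIndex ℤ L) := inferInstance
    have hfint : Fintype (Free.ChooseBasisIndex ℤ L) := Fintype.ofFinite _
    set Fd := fundamentalDomain b with hFd
    have hFb : Bornology.IsBounded Fd := fundamentalDomain_isBounded b
    have hFm : MeasurableSet Fd := fundamentalDomain_measurableSet b
    have hfund : IsAddFundamentalDomain L Fd μ := ZLattice.isAddFundamentalDomain b₀ μ
    have hcov : ZLattice.covolume L μ = (μ Fd).toReal :=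
      ZLattice.covolume_eq_measure_fundamentalDomain L μ hfund
    have hFfin : μ Fd ≠ ⊤ := hFb.measure_lt_top.ne
    set cov := ZLattice.covolume L μ with hcovd
    have hcov0 : 0 < cov := ZLattice.covolume_pos L μ
    obtain ⟨R, hR⟩ := hFb.exists_norm_le
    choose D hD0 hD using fun i => ih (fun x => fderiv ℝ f x (b i)) (deriv_props hf hc μ (b i)).1
      (deriv_props hf hc μ (b i)).2.1
    simp only [(deriv_props hf hc μ _).2.2, mul_zero, zero_div, sub_zero] at hD
    obtain ⟨R₀, hR₀, hsupp⟩ := exists_radius hc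
    refine ⟨∑ i, D i, Finset.sum_nonneg fun i _ => hD0 i, fun t ht u => ?_⟩
    have ht0 : 0 < t := by linarith
    set B : ℝ := (∑ i, D i) * t ^ finrank ℝ E * (t ^ (m + 1))⁻¹ with hB
    -- the finite set of relevant lattice points
    set N : Finset L := (finite_norm_le L (t * R₀ + ‖u‖ + R)).toFinset with hN
    have hNmem : ∀ (α : L) (w : E), ‖w‖ ≤ R → α ∉ N →
        t⁻¹ • ((α : E) + (u + w)) ∉ tsupport f := by
      intro α w hw hα h
      apply hα
      rw [hN, Set.Finite.mem_toFinset]
      have h5 := hsupp _ h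
      rw [norm_smul, Real.norm_of_nonneg (inv_nonneg.mpr ht0.le), inv_mul_le_iff₀ ht0] at h5
      show ‖(α : E)‖ ≤ t * R₀ + ‖u‖ + R
      calc ‖(α : E)‖ = ‖((α : E) + (u + w)) - u - w‖ := by congr 1; abel
        _ ≤ ‖((α : E) + (u + w)) - u‖ + ‖w‖ := norm_sub_le _ _
        _ ≤ ‖((α : E) + (u + w))‖ + ‖u‖ + ‖w‖ := by gcongr; exact norm_sub_le _ _
        _ ≤ t * R₀ + ‖u‖ + R := by gcongr
    have hN0 : ∀ (α : L) (w : E), ‖w‖ ≤ R → α ∉ N → f (t⁻¹ • ((α : E) + (u + w))) = 0 :=
      fun α w hw hα => image_eq_zero_of_notMem_tsupport (hNmem α w hw hα)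
    have hN1 : ∀ (α : L) (w : E), ‖w‖ ≤ R → α ∉ N →
        fderiv ℝ f (t⁻¹ • ((α : E) + (u + w))) = 0 := fun α w hw hα => by
      have h := hNmem α w hw hα
      exact image_eq_zero_of_notMem_tsupport fun h' => h (tsupport_fderiv_subset ℝ h')
    have hdiff : ∀ x, DifferentiableAt ℝ f x := fun x => (hf.differentiable (by simp)).differentiableAt
    -- the mean value estimate
    have hstep : ∀ v ∈ Fd, |∑ α ∈ N, f (t⁻¹ • ((α : E) + (u + v))) -
        ∑ α ∈ N, f (t⁻¹ • ((α : E) + u))| ≤ B := by
      intro v hv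
      set G : ℝ → ℝ := fun r => ∑ α ∈ N, f (t⁻¹ • ((α : E) + (u + r • v))) with hG
      set G' : ℝ → ℝ := fun r => ∑ α ∈ N, fderiv ℝ f (t⁻¹ • ((α : E) + (u + r • v))) (t⁻¹ • v)
        with hG'
      have h1 : ∀ r : ℝ, HasDerivAt G (G' r) r := by
        intro r
        rw [hG, hG']
        refine HasDerivAt.fun_sum fun α _ => ?_
        have h2 : HasDerivAt (fun r : ℝ => t⁻¹ • ((α : E) + (u + r • v))) (t⁻¹ • v) r := by
          have h3 : HasDerivAt (fun r : ℝ => (α : E) + (u + r • v)) v r := by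
            have h4 : HasDerivAt (fun r : ℝ => r • v) ((1 : ℝ) • v) r :=
              (hasDerivAt_id r).smul_const v
            rw [one_smul] at h4
            exact (h4.const_add u).const_add (α : E)
          exact h3.const_smul t⁻¹
        exact (hdiff _).hasFDerivAt.comp_hasDerivAt r h2
      have h2 : ∀ r ∈ Set.Ico (0 : ℝ) 1, ‖G' r‖ ≤ B := by
        intro r hr
        have hrv : ‖r • v‖ ≤ R := by
          rw [norm_smul, Real.norm_of_nonneg hr.1]
          calc r * ‖v‖ ≤ 1 * ‖v‖ := mul_le_mul_of_nonneg_right hr.2.le (norm_nonneg _)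
            _ = ‖v‖ := one_mul _
            _ ≤ R := hR v hv
        have h3 : G' r = t⁻¹ * ∑ i, b.repr v i *
            ∑' α : L, fderiv ℝ f (t⁻¹ • ((α : E) + (u + r • v))) (b i) := by
          have h4 : ∀ i, ∑' α : L, fderiv ℝ f (t⁻¹ • ((α : E) + (u + r • v))) (b i) =
              ∑ α ∈ N, fderiv ℝ f (t⁻¹ • ((α : E) + (u + r • v))) (b i) := by
            intro i
            refine tsum_eq_sum fun α hα => ?_
            rw [hN1 α _ hrv hα]
            rfl
          simp_rw [h4]
          rw [hG']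
          simp only [map_smul, smul_eq_mul]
          rw [← Finset.mul_sum]
          congr 1
          simp_rw [Finset.mul_sum]
          rw [Finset.sum_comm]
          have e : ∀ (Λ : E →L[ℝ] ℝ), Λ v = ∑ i, b.repr v i * Λ (b i) := by
            intro Λ
            conv_lhs => rw [← b.sum_repr v]
            rw [map_sum]
            refine Finset.sum_congr rfl fun i _ => ?_
            rw [map_smul, smul_eq_mul]
          exact Finset.sum_congr rfl fun α _ => e _
        rw [h3, norm_mul, Real.norm_of_nonneg (inv_nonneg.mpr ht0.le)]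
        have h5 : ‖∑ i, b.repr v i *
            ∑' α : L, fderiv ℝ f (t⁻¹ • ((α : E) + (u + r • v))) (b i)‖ ≤
            ∑ i, D i * t ^ finrank ℝ E * (t ^ m)⁻¹ := by
          refine (norm_sum_le _ _).trans (Finset.sum_le_sum fun i _ => ?_)
          rw [norm_mul]
          have h6 : ‖b.repr v i‖ ≤ 1 := by
            have := (mem_fundamentalDomain b).mp hv i
            rw [Real.norm_of_nonneg this.1]
            exact this.2.le
          have h7 := hD i t ht (u + r • v)
          calc ‖b.repr v i‖ * ‖∑' α : L, fderiv ℝ f (t⁻¹ • ((α : E) + (u + r • v))) (b i)‖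
              ≤ 1 * (D i * t ^ finrank ℝ E * (t ^ m)⁻¹) :=
                mul_le_mul h6 h7 (norm_nonneg _) zero_le_one
            _ = _ := one_mul _
        calc t⁻¹ * _ ≤ t⁻¹ * ∑ i, D i * t ^ finrank ℝ E * (t ^ m)⁻¹ :=
              mul_le_mul_of_nonneg_left h5 (inv_nonneg.mpr ht0.le)
          _ = B := by
              rw [hB, ← Finset.sum_mul, ← Finset.sum_mul, pow_succ, mul_inv]
              ring
      have h3 := norm_image_sub_le_of_norm_deriv_le_segment_01' (f := G) (f' := G') (C := B)
        (fun r _ => (h1 r).hasDerivWithinAt) h2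
      rw [hG] at h3
      simpa using h3
    -- the mean over the fundamental domain
    have hint : Integrable (fun x => f (t⁻¹ • (x + u))) μ := by
      have h1 : Integrable f μ := hf.continuous.integrable_of_hasCompactSupport hc
      exact (h1.comp_smul (inv_ne_zero ht0.ne')).comp_add_right u
    have hmean : t ^ finrank ℝ E * ∫ x, f x ∂μ =
        ∫ x in Fd, ∑ α ∈ N, f (t⁻¹ • ((α : E) + (u + x))) ∂μ := by
      have hinv : VAddInvariantMeasure L E μ :=
        inferInstanceAs <| VAddInvariantMeasure L.toAddSubgroup E μ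
      have h1 := hfund.integral_eq_tsum'' (fun x => f (t⁻¹ • (x + u))) hint
      have h2 : ∫ x, f (t⁻¹ • (x + u)) ∂μ = t ^ finrank ℝ E * ∫ x, f x ∂μ := by
        rw [integral_add_right_eq_self (μ := μ) (fun x => f (t⁻¹ • x)) u,
          Measure.integral_comp_inv_smul_of_nonneg μ f ht0.le, smul_eq_mul]
      rw [← h2, h1, tsum_eq_sum (s := N), ← integral_finsetSum]
      · refine integral_congr_ae (Filter.Eventually.of_forall fun x => ?_)
        refine Finset.sum_congr rfl fun α _ => ?_
        show f (t⁻¹ • (((α : E) + x) + u)) = _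
        congr 2
        abel
      · intro α _
        have h3 : Integrable (fun x => f (t⁻¹ • (((α : E) + x) + u))) μ := by
          have := hint.comp_add_left (α : E)
          exact this
        exact h3.integrableOn
      · intro α hα
        refine (setIntegral_congr_fun hFm (g := fun _ => (0 : ℝ)) fun x hx => ?_).trans (by simp)
        show f (t⁻¹ • (((α : E) + x) + u)) = 0
        have h4 := hN0 α x (hR x hx) hα
        rw [← h4]
        congr 2
        abel
    have htsum : ∑' α : L, f (t⁻¹ • ((α : E) + u)) = ∑ α ∈ N, f (t⁻¹ • ((α : E) + u)) := by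
      refine tsum_eq_sum fun α hα => ?_
      have h4 := hN0 α 0 (by rw [norm_zero]; exact (norm_nonneg _).trans (hR 0 (by
        rw [hFd, mem_fundamentalDomain]; intro i; simp))) hα
      rw [add_zero] at h4
      exact h4
    rw [htsum, hmean]
    set U : ℝ := ∑ α ∈ N, f (t⁻¹ • ((α : E) + u)) with hU
    have h1 : U * cov = ∫ x in Fd, U ∂μ := by
      rw [setIntegral_const, hcov, smul_eq_mul, mul_comm]
      rfl
    have hintN : IntegrableOn (fun x => ∑ α ∈ N, f (t⁻¹ • ((α : E) + (u + x)))) Fd μ := by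
      refine Integrable.integrableOn ?_
      refine integrable_finsetSum _ fun α _ => ?_
      have := hint.comp_add_left (α : E)
      refine this.congr (Filter.Eventually.of_forall fun x => ?_)
      show f (t⁻¹ • (((α : E) + x) + u)) = _
      congr 2
      abel
    have h2 : U - (∫ x in Fd, ∑ α ∈ N, f (t⁻¹ • ((α : E) + (u + x))) ∂μ) / cov =
        -(∫ x in Fd, (∑ α ∈ N, f (t⁻¹ • ((α : E) + (u + x))) - U) ∂μ) / cov := by
      rw [integral_sub hintN (integrableOn_const hFfin), ← h1]
      field_simp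
      ring
    rw [h2, abs_div, abs_neg, abs_of_pos hcov0, div_le_iff₀ hcov0]
    have h3 := norm_setIntegral_le_of_norm_le_const (μ := μ) (s := Fd) (C := B)
      (f := fun x => ∑ α ∈ N, f (t⁻¹ • ((α : E) + (u + x))) - U) hFb.measure_lt_top
      (fun x hx => hstep x hx)
    rw [hcov]
    exact h3

end Pool.Agent.MPfb225e.LatSum
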