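import Mathlib
import Pool.Agent.Lib.MP_fb225e_nt.Simple.Bump
import Pool.Agent.Lib.MP_fb225e_nt.Simple.LatSum

/-!
MP_fb225e_nt, module S, part 4: the lattice sum of the weight is a sum over the fundamental cone.
-/

namespace Pool.Agent.MPfb225e.UnitSum

open NumberField NumberField.InfinitePlace NumberField.mixedEmbedding
  NumberField.mixedEmbedding.fundamentalCone NumberField.Units NumberField.Units.dirichletUnitTheorem
  MeasureTheory Module nonZeroDivisors

universe u

variable {K : Type u} [Field K] [NumberField K]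

open scoped Classical

variable (K) in
/-- A product of powers of fundamental units. -/
noncomputable def unitPow (k : Fin (rank K) → ℤ) : (𝓞 K)ˣ := ∏ i, fundSystem K i ^ k i

theorem coord_unitPow (k : Fin (rank K) → ℤ) {x : mixedSpace K}
    (hx : mixedEmbedding.norm x ≠ 0) (i : Fin (rank K)) :
    Bump.coord (unitPow K k • x) i = Bump.coord x i + k i := by
  unfold Bump.coord
  set B := (basisUnitLattice K).ofZLatticeBasis ℝ (unitLattice K) with hB
  rw [logMap_unit_smul _ hx, map_add, Finsupp.add_apply, add_comm]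
  congr 1
  have h1 : logEmbedding K (Additive.ofMul (unitPow K k)) = ∑ j, (k j : ℝ) • B j := by
    unfold unitPow
    rw [ofMul_prod, map_sum]
    refine Finset.sum_congr rfl fun j _ => ?_
    rw [ofMul_zpow, map_zsmul, logEmbedding_fundSystem, hB, Module.Basis.ofZLatticeBasis_apply,
      Int.cast_smul_eq_zsmul]
  rw [h1, B.repr_sum_self]

theorem mem_cone_iff {x : mixedSpace K} : x ∈ fundamentalCone K ↔
    (∀ i, Bump.coord x i ∈ Set.Ico (0 : ℝ) 1) ∧ mixedEmbedding.norm x ≠ 0 := Iff.rfl

theorem unit_smul_mem (J : (Ideal (𝓞 K))⁰) (u : (𝓞 K)ˣ) {x : mixedSpace K}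
    (hx : x ∈ idealLattice K (FractionalIdeal.mk0 K J)) :
    u • x ∈ idealLattice K (FractionalIdeal.mk0 K J) := by
  rw [mem_idealLattice] at hx ⊢
  obtain ⟨y, hy, rfl⟩ := hx
  refine ⟨(u : 𝓞 K) • y, ?_, ?_⟩
  · exact Submodule.smul_mem _ _ hy
  · rw [unitSMul_smul, ← map_mul, Algebra.smul_def]

variable (J : (Ideal (𝓞 K))⁰)

/-- All nonzero points of the lattice are translates of points of the cone. -/
noncomputable def psi : idealSet K J × (Fin (rank K) → ℤ) →
    idealLattice K (FractionalIdeal.mk0 K J) :=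
  fun p => ⟨unitPow K p.2 • (p.1 : mixedSpace K), unit_smul_mem J _ p.1.2.2⟩

theorem psi_coe (p : idealSet K J × (Fin (rank K) → ℤ)) :
    (psi J p : mixedSpace K) = unitPow K p.2 • (p.1 : mixedSpace K) := rfl

theorem norm_psi (p : idealSet K J × (Fin (rank K) → ℤ)) :
    mixedEmbedding.norm (psi J p : mixedSpace K) = mixedEmbedding.norm (p.1 : mixedSpace K) := by
  rw [psi_coe, norm_unit_smul]

theorem coord_psi (p : idealSet K J × (Fin (rank K) → ℤ)) (i : Fin (rank K)) :
    Bump.coord (psi J p : mixedSpace K) i = Bump.coord (p.1 : mixedSpace K) i + p.2 i := by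
  rw [psi_coe, coord_unitPow _ (mem_cone_iff.mp p.1.2.1).2]

theorem psi_injective : Function.Injective (psi J) := by
  rintro ⟨β, k⟩ ⟨β', k'⟩ h
  have h1 : k = k' := by
    funext i
    have e : ∀ (β : idealSet K J) (k : Fin (rank K) → ℤ),
        ⌊Bump.coord (psi J (β, k) : mixedSpace K) i⌋ = k i := by
      intro β k
      rw [coord_psi, Int.floor_add_intCast]
      have := (mem_cone_iff.mp β.2.1).1 i
      rw [Int.floor_eq_zero_iff.mpr this, zero_add]
    rw [← e β k, ← e β' k', h]
  subst h1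
  congr 1
  have h2 : unitPow K k • (β : mixedSpace K) = unitPow K k • (β' : mixedSpace K) :=
    congrArg Subtype.val h
  exact Subtype.ext (smul_left_cancel _ h2)

theorem mem_range_psi {α : idealLattice K (FractionalIdeal.mk0 K J)}
    (h : mixedEmbedding.norm (α : mixedSpace K) ≠ 0) : α ∈ Set.range (psi J) := by
  set k : Fin (rank K) → ℤ := fun i => ⌊Bump.coord (α : mixedSpace K) i⌋ with hk
  set u := unitPow K k with hu
  have h1 : mixedEmbedding.norm (u⁻¹ • (α : mixedSpace K)) ≠ 0 := by rwa [norm_unit_smul]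
  have h2 : u • (u⁻¹ • (α : mixedSpace K)) = α := smul_inv_smul _ _
  have h3 : u⁻¹ • (α : mixedSpace K) ∈ fundamentalCone K := by
    refine mem_cone_iff.mpr ⟨fun i => ?_, h1⟩
    have h4 := coord_unitPow k h1 i
    rw [← hu, h2] at h4
    have h5 : Bump.coord (u⁻¹ • (α : mixedSpace K)) i = Int.fract (Bump.coord (α : mixedSpace K) i) := by
      rw [Int.fract]
      exact eq_sub_of_add_eq h4.symm
    rw [h5]
    exact ⟨Int.fract_nonneg _, Int.fract_lt_one _⟩
  exact ⟨(⟨u⁻¹ • (α : mixedSpace K), h3, unit_smul_mem J _ α.2⟩, k), Subtype.ext h2⟩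

theorem summable_g {φ : ℝ → ℝ} (hφ : HasCompactSupport φ) {t : ℝ} (ht : 0 < t) :
    Summable fun α : idealLattice K (FractionalIdeal.mk0 K J) =>
      Bump.g φ (t⁻¹ • (α : mixedSpace K)) := by
  obtain ⟨R, -, hR⟩ := LatSum.exists_radius (Bump.hasCompactSupport_g (K := K) hφ)
  have hfin := LatSum.finite_norm_le (idealLattice K (FractionalIdeal.mk0 K J)) (t * R)
  refine summable_of_hasFiniteSupport ?_
  refine hfin.subset fun α hα => ?_
  have h1 := hR _ (subset_tsupport _ hα)
  rw [_root_.norm_smul, Real.norm_of_nonneg (inv_nonneg.mpr ht.le), inv_mul_le_iff₀ ht] at h1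
  exact h1

theorem lattice_sum {φ : ℝ → ℝ} (hφ : HasCompactSupport φ) {t X : ℝ} (ht : 0 < t)
    (hX : t ^ finrank ℚ K = X) :
    ∑' α : idealLattice K (FractionalIdeal.mk0 K J), Bump.g φ (t⁻¹ • (α : mixedSpace K)) =
      ∑' β : idealSet K J, φ (Real.log X - Real.log (mixedEmbedding.norm (β : mixedSpace K))) := by
  have h0 := (psi_injective J).tsum_eq
    (f := fun α : idealLattice K (FractionalIdeal.mk0 K J) =>
      Bump.g φ (t⁻¹ • (α : mixedSpace K))) (by
    intro α hα
    refine mem_range_psi J fun h => hα ?_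
    show Bump.g φ _ = 0
    rw [Bump.g_smul φ ht hX, if_pos h])
  rw [← h0]
  have h1 : ∀ p : idealSet K J × (Fin (rank K) → ℤ), Bump.g φ (t⁻¹ • (psi J p : mixedSpace K)) =
      (∏ i, Unity.th (Bump.coord (p.1 : mixedSpace K) i + p.2 i)) *
        φ (Real.log X - Real.log (mixedEmbedding.norm (p.1 : mixedSpace K))) := by
    intro p
    rw [Bump.g_smul φ ht hX, norm_psi, if_neg (mem_cone_iff.mp p.1.2.1).2]
    simp_rw [coord_psi]
  have h2 : Summable fun p : idealSet K J × (Fin (rank K) → ℤ) =>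
      Bump.g φ (t⁻¹ • (psi J p : mixedSpace K)) :=
    (summable_g J hφ ht).comp_injective (psi_injective J)
  rw [h2.tsum_prod]
  refine tsum_congr fun β => ?_
  simp_rw [h1]
  rw [tsum_mul_right, (Unity.hasSum_prod_th _).tsum_eq, one_mul]

end Pool.Agent.MPfb225e.UnitSum
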