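import Mathlib
import Pool.Agent.Lib.MP_fb225e_nt.Simple.UnitSum
import Pool.Agent.Lib.MP_fb225e_nt.IdealCount

/-!
MP_fb225e_nt, module S, part 5: the smooth count of ideals.
-/

namespace Pool.Agent.MPfb225e.Smooth

open NumberField NumberField.InfinitePlace NumberField.mixedEmbedding
  NumberField.mixedEmbedding.fundamentalCone NumberField.Units NumberField.Units.dirichletUnitTheorem
  MeasureTheory Module nonZeroDivisors Ideal

universe u

variable (K : Type u) [Field K] [NumberField K]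

open scoped Classical

theorem card_idl (n : ℕ) :
    (Nat.card {I : (Ideal (𝓞 K))⁰ // absNorm (I : Ideal (𝓞 K)) = n} : ℝ) = idl K n := by
  unfold idl
  split_ifs with h
  · subst h
    rw [Nat.cast_eq_zero, Nat.card_eq_zero]
    left
    constructor
    rintro ⟨I, hI⟩
    exact (absNorm_pos_of_nonZeroDivisors I).ne' hI
  · congr 1
    refine Nat.card_congr ⟨fun I => ⟨I.1.1, I.2⟩, fun I => ⟨⟨I.1, ?_⟩, I.2⟩, fun I => rfl,
      fun I => rfl⟩
    refine mem_nonZeroDivisors_of_ne_zero fun h0 => h ?_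
    rw [← I.2, h0]
    exact absNorm_bot

theorem card_class {C : ClassGroup (𝓞 K)} {J : (Ideal (𝓞 K))⁰} (hJ : ClassGroup.mk0 J = C⁻¹)
    (n : ℕ) :
    Nat.card {I : {I : (Ideal (𝓞 K))⁰ // ClassGroup.mk0 I = C} //
      absNorm (I.1 : Ideal (𝓞 K)) * absNorm (J : Ideal (𝓞 K)) = n} =
    Nat.card {I : (Ideal (𝓞 K))⁰ // (J : Ideal (𝓞 K)) ∣ I ∧
      Submodule.IsPrincipal (I : Ideal (𝓞 K)) ∧ absNorm (I : Ideal (𝓞 K)) = n} := by
  simp_rw [← nonZeroDivisors_dvd_iff_dvd_coe]
  refine Nat.card_congr ?_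
  refine (Equiv.subtypeSubtypeEquivSubtypeInter (fun I : (Ideal (𝓞 K))⁰ => ClassGroup.mk0 I = C)
    (fun I => absNorm (I : Ideal (𝓞 K)) * absNorm (J : Ideal (𝓞 K)) = n)).trans ?_
  refine ((Equiv.dvd J).subtypeEquiv fun I ↦ ?_).trans
    (Equiv.subtypeSubtypeEquivSubtypeInter (fun I : (Ideal (𝓞 K))⁰ ↦ J ∣ I) _)
  rw [← ClassGroup.mk0_eq_one_iff (SetLike.coe_mem _)]
  simp_rw [Equiv.dvd_apply, Submonoid.coe_mul, ← Submonoid.mul_def, _root_.map_mul, hJ,
    inv_mul_eq_one]
  rw [eq_comm (a := C), mul_comm]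

theorem summable_ideal {φ : ℝ → ℝ} (hφ : Weight φ) {X : ℝ} (hX : 1 ≤ X) :
    Summable fun I : (Ideal (𝓞 K))⁰ => φ (Real.log X - Real.log (absNorm (I : Ideal (𝓞 K)))) := by
  have hfin := Ideal.finite_setOfPred_absNorm_le₀ (S := 𝓞 K) ⌊X⌋₊
  refine summable_of_hasFiniteSupport (hfin.subset fun I hI => ?_)
  have h1 := hφ.pos _ hI
  have h2 : (0 : ℝ) < absNorm (I : Ideal (𝓞 K)) := by
    exact_mod_cast absNorm_pos_of_nonZeroDivisors I
  have hX0 : 0 < X := by linarith
  have h3 : (absNorm (I : Ideal (𝓞 K)) : ℝ) < X :=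
    (Real.log_lt_log_iff h2 hX0).mp (by linarith)
  exact Nat.le_floor h3.le

theorem class_sum {C : ClassGroup (𝓞 K)} {J : (Ideal (𝓞 K))⁰} (hJ : ClassGroup.mk0 J = C⁻¹)
    {φ : ℝ → ℝ} (hφ : Weight φ) {X : ℝ} (hX : 1 ≤ X) :
    (∑' I : {I : (Ideal (𝓞 K))⁰ // ClassGroup.mk0 I = C},
      φ (Real.log X - Real.log (absNorm (I.1 : Ideal (𝓞 K))))) * torsionOrder K =
    ∑' β : idealSet K J, φ (Real.log (X * absNorm (J : Ideal (𝓞 K))) -
      Real.log (mixedEmbedding.norm (β : mixedSpace K))) := by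
  set NJ : ℕ := absNorm (J : Ideal (𝓞 K)) with hNJ
  have hNJ0 : (0 : ℝ) < NJ := by exact_mod_cast absNorm_pos_of_nonZeroDivisors J
  have hX0 : 0 < X := by linarith
  set F : ℕ → ℝ := fun n => φ (Real.log (X * NJ) - Real.log n) with hF
  -- left hand side
  have hL1 : ∀ I : {I : (Ideal (𝓞 K))⁰ // ClassGroup.mk0 I = C},
      φ (Real.log X - Real.log (absNorm (I.1 : Ideal (𝓞 K)))) =
        F (absNorm (I.1 : Ideal (𝓞 K)) * NJ) := by
    intro I
    have h2 : (0 : ℝ) < absNorm (I.1 : Ideal (𝓞 K)) := by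
      exact_mod_cast absNorm_pos_of_nonZeroDivisors I.1
    rw [hF]
    simp only [Nat.cast_mul]
    rw [Real.log_mul hX0.ne' hNJ0.ne', Real.log_mul h2.ne' hNJ0.ne']
    congr 1
    ring
  have hs1 : Summable fun I : {I : (Ideal (𝓞 K))⁰ // ClassGroup.mk0 I = C} =>
      F (absNorm (I.1 : Ideal (𝓞 K)) * NJ) := by
    simp_rw [← hL1]
    exact (summable_ideal K hφ hX).comp_injective Subtype.val_injective
  have hs2 : Summable fun β : idealSet K J => F (intNorm (idealSetEquiv K J β).val) := by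
    refine summable_of_hasFiniteSupport ?_
    have hfin := Cone.finite_idealSet K J (X * NJ)
    refine Set.Finite.of_finite_image (f := Subtype.val) (hfin.subset ?_)
      Subtype.val_injective.injOn
    rintro _ ⟨β, hβ, rfl⟩
    refine ⟨β.2, ?_⟩
    have h1 := hφ.pos _ hβ
    have h2 : 0 < mixedEmbedding.norm (β : mixedSpace K) := norm_pos_of_mem β.2.1
    rw [intNorm_idealSetEquiv_apply] at h1
    exact ((Real.log_lt_log_iff h2 (by positivity)).mp (by linarith)).le
  have hR1 : ∀ β : idealSet K J, φ (Real.log (X * NJ) -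
      Real.log (mixedEmbedding.norm (β : mixedSpace K))) =
        F (intNorm (idealSetEquiv K J β).val) := by
    intro β
    rw [hF]
    simp only
    rw [intNorm_idealSetEquiv_apply]
  simp_rw [hL1, hR1]
  rw [Unity.tsum_fiber (fun I : {I : (Ideal (𝓞 K))⁰ // ClassGroup.mk0 I = C} =>
      absNorm (I.1 : Ideal (𝓞 K)) * NJ) F hs1,
    Unity.tsum_fiber (fun β : idealSet K J => intNorm (idealSetEquiv K J β).val) F hs2,
    ← tsum_mul_right]
  refine tsum_congr fun n => ?_
  have h1 : (Nat.card {β : idealSet K J // intNorm (idealSetEquiv K J β).val = n}) =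
      Nat.card {I : (Ideal (𝓞 K))⁰ // (J : Ideal (𝓞 K)) ∣ I ∧
        Submodule.IsPrincipal (I : Ideal (𝓞 K)) ∧ absNorm (I : Ideal (𝓞 K)) = n} *
        torsionOrder K := by
    rw [torsionOrder, ← Nat.card_prod]
    refine Nat.card_congr ?_
    refine Equiv.trans (Equiv.subtypeEquivRight fun β => ?_) (idealSetEquivNorm K J n)
    rw [← intNorm_idealSetEquiv_apply, Nat.cast_inj]
  rw [h1, card_class K hJ n]
  push_cast
  ring

/-- MODULE S. -/
theorem smoothCount : SmoothCount K := by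
  intro φ hφ
  choose J hJ using fun C : ClassGroup (𝓞 K) => ClassGroup.mk0_surjective C⁻¹
  set T : ℝ := (torsionOrder K : ℝ) with hT
  have hT0 : 0 < T := by
    rw [hT]
    exact_mod_cast torsionOrder_pos K
  set NJ : ClassGroup (𝓞 K) → ℝ := fun C => (absNorm (J C : Ideal (𝓞 K)) : ℝ) with hNJ
  have hNJ1 : ∀ C, 1 ≤ NJ C := by
    intro C
    have : 1 ≤ absNorm (J C : Ideal (𝓞 K)) := absNorm_pos_of_nonZeroDivisors (J C)
    simp only [hNJ]
    exact_mod_cast this
  set G : ℝ := ∫ x : mixedSpace K, Bump.g φ x with hG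
  set cov : ClassGroup (𝓞 K) → ℝ := fun C =>
    ZLattice.covolume (idealLattice K (FractionalIdeal.mk0 K (J C))) with hcov
  set n := finrank ℚ K with hn
  have hn0 : 0 < n := finrank_pos
  have hdim : finrank ℝ (mixedSpace K) = n := mixedEmbedding.finrank K
  refine ⟨∑ C, NJ C * G / cov C / T, fun A => ?_⟩
  choose D hD0 hD using fun C : ClassGroup (𝓞 K) =>
    LatSum.latSum (volume : Measure (mixedSpace K))
      (idealLattice K (FractionalIdeal.mk0 K (J C))) (n * (A + 1)) (Bump.g φ)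
      (Bump.contDiff_g hφ) (Bump.hasCompactSupport_g hφ.compact)
  refine ⟨∑ C, D C / T, fun X hX => ?_⟩
  have hX0 : 0 < X := by linarith
  -- reduction to classes
  have h1 : ∑' m : ℕ, idl K m * φ (Real.log X - Real.log m) =
      ∑ C, ∑' I : {I : (Ideal (𝓞 K))⁰ // ClassGroup.mk0 I = C},
        φ (Real.log X - Real.log (absNorm (I.1 : Ideal (𝓞 K)))) := by
    have h2 := Unity.tsum_fiber (fun I : (Ideal (𝓞 K))⁰ => absNorm (I : Ideal (𝓞 K)))
      (fun m => φ (Real.log X - Real.log m)) (summable_ideal K hφ hX)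
    simp_rw [card_idl K] at h2
    rw [← h2, ← (Equiv.sigmaFiberEquiv (fun I : (Ideal (𝓞 K))⁰ => ClassGroup.mk0 I)).tsum_eq]
    have h3 : Summable fun c => φ (Real.log X - Real.log (absNorm
        ((Equiv.sigmaFiberEquiv (fun I : (Ideal (𝓞 K))⁰ => ClassGroup.mk0 I)) c :
          Ideal (𝓞 K)))) :=
      (Equiv.sigmaFiberEquiv _).summable_iff.mpr (summable_ideal K hφ hX)
    rw [h3.tsum_sigma, tsum_fintype]
    rfl
  rw [h1, Finset.sum_mul, ← Finset.sum_sub_distrib, Finset.sum_mul]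
  refine (Finset.abs_sum_le_sum_abs _ _).trans (Finset.sum_le_sum fun C _ => ?_)
  -- one class
  set X' : ℝ := X * NJ C with hX'
  have hX'1 : X ≤ X' := le_mul_of_one_le_right hX0.le (hNJ1 C)
  have hX'0 : 0 < X' := by linarith
  set t : ℝ := X' ^ ((n : ℝ)⁻¹) with ht
  have ht0 : 0 < t := Real.rpow_pos_of_pos hX'0 _
  have ht1 : 1 ≤ t := Real.one_le_rpow (by linarith) (by positivity)
  have htn : t ^ n = X' := Real.rpow_inv_natCast_pow hX'0.le hn0.ne'
  have h2 := hD C t ht1 0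
  simp only [add_zero] at h2
  rw [UnitSum.lattice_sum (J C) hφ.compact ht0 htn, hdim, htn, pow_mul, htn] at h2
  have h3 := class_sum K (hJ C) hφ hX
  have h4 : ∑' I : {I : (Ideal (𝓞 K))⁰ // ClassGroup.mk0 I = C},
        φ (Real.log X - Real.log (absNorm (I.1 : Ideal (𝓞 K)))) =
      (∑' β : idealSet K (J C), φ (Real.log X' -
        Real.log (mixedEmbedding.norm (β : mixedSpace K)))) / T := by
    rw [eq_div_iff hT0.ne']
    exact h3
  rw [h4]
  have h5 : (∑' β : idealSet K (J C), φ (Real.log X' -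
        Real.log (mixedEmbedding.norm (β : mixedSpace K)))) / T - NJ C * G / cov C / T * X =
      (∑' β : idealSet K (J C), φ (Real.log X' -
        Real.log (mixedEmbedding.norm (β : mixedSpace K))) - X' * G / cov C) / T := by
    rw [hX']
    ring
  rw [h5, abs_div, abs_of_pos hT0]
  have h6 : D C * X' * (X' ^ (A + 1))⁻¹ ≤ D C * (X ^ A)⁻¹ := by
    rw [mul_assoc]
    refine mul_le_mul_of_nonneg_left ?_ (hD0 C)
    rw [pow_succ, mul_inv, mul_comm ((X' ^ A)⁻¹), ← mul_assoc, mul_inv_cancel₀ hX'0.ne', one_mul]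
    exact inv_anti₀ (by positivity) (pow_le_pow_left₀ hX0.le hX'1 A)
  rw [div_mul_eq_mul_div]
  exact div_le_div_of_nonneg_right (h2.trans h6) hT0.le

end Pool.Agent.MPfb225e.Smooth
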