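import Mathlib
import Pool.Agent.Lib.MP_fb225e_nt.Euler

/-!
MP_fb225e_nt, project (A), module L, part 2: Euler products of power series with nonnegative
coefficients.
-/

namespace Pool.Agent.MPfb225e.Landau

open ArithmeticFunction Filter Topology Euler

variable {ι : Type*}

section nonneg

variable (q : ι → ℕ) [Northcott q] (hq : ∀ i, 1 < q i) (f : ι → PowerSeries ℝ)
  (hf : ∀ i, (f i).constantCoeff = 1) (h0 : ∀ i k, 0 ≤ (f i).coeff k)

/-- the Euler product -/
noncomputable def EP : ArithmeticFunction ℝ := eulerProduct fun i => ofPowerSeries (q i) (f i)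

include hq h0 in
omit [Northcott q] in
theorem loc_nonneg (i : ι) (n : ℕ) : 0 ≤ ofPowerSeries (q i) (f i) n := by
  rw [ofPowerSeries_apply (hq i)]
  by_cases h : ∃ k, q i ^ k = n
  · obtain ⟨k, rfl⟩ := h
    rw [(Nat.pow_right_injective (hq i)).extend_apply]
    exact h0 i k
  · rw [Function.extend_apply' _ _ _ h]; simp

include hf in
theorem EP_eventually (n : ℕ) :
    ∀ᶠ S : Finset ι in atTop, (∏ i ∈ S, ofPowerSeries (q i) (f i)) n = EP q f n :=
  tendsTo_eulerProduct_ofPowerSeries q f hf n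

include hq hf h0

theorem prod_le_EP (S : Finset ι) (n : ℕ) : (∏ i ∈ S, ofPowerSeries (q i) (f i)) n ≤ EP q f n := by
  classical
  obtain ⟨T, hT1, hT2⟩ := ((EP_eventually q f hf n).and (eventually_ge_atTop S)).exists
  rw [← hT1]
  exact prod_mono (loc_nonneg q hq f h0) (fun i => by rw [ofPowerSeries_apply_one, hf]) hT2 n

theorem EP_nonneg (n : ℕ) : 0 ≤ EP q f n :=
  (prod_nonneg' ∅ (loc_nonneg q hq f h0) n).trans (prod_le_EP q hq f hf h0 ∅ n)

theorem coeff_le_EP (i : ι) (k : ℕ) : (f i).coeff k ≤ EP q f (q i ^ k) := by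
  have h1 := prod_le_EP q hq f hf h0 {i} (q i ^ k)
  rwa [Finset.prod_singleton, ofPowerSeries_apply_pow (hq i)] at h1

theorem hasProd_EP (s : ℂ) (F : ι → ℂ)
    (hF : ∀ i, HasSum (fun k => (((f i).coeff k : ℝ) : ℂ) * ((q i : ℂ) ^ (-s)) ^ k) (F i))
    (R : ι → ℝ)
    (hR : ∀ i, HasSum (fun k => (f i).coeff k * ((q i : ℝ) ^ (-s.re)) ^ k) (R i))
    (B : ℝ) (hB : ∀ S : Finset ι, ∏ i ∈ S, R i ≤ B) :
    LSeriesSummable (fun n => ((EP q f n : ℝ) : ℂ)) s ∧
      HasProd F (LSeries (fun n => ((EP q f n : ℝ) : ℂ)) s) := by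
  classical
  have hgn := loc_nonneg q hq f h0
  have hloc : ∀ i, toC (ofPowerSeries (q i) (f i)) =
      ofPowerSeries (q i) (PowerSeries.map Complex.ofRealHom (f i)) := by
    intro i
    ext n
    rw [toC_apply, ofPowerSeries_apply (hq i), ofPowerSeries_apply (hq i)]
    by_cases h : ∃ k, q i ^ k = n
    · obtain ⟨k, rfl⟩ := h
      rw [(Nat.pow_right_injective (hq i)).extend_apply,
        (Nat.pow_right_injective (hq i)).extend_apply]
      simp
    · rw [Function.extend_apply' _ _ _ h, Function.extend_apply' _ _ _ h]; simp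
  have hLG : ∀ i, LSeriesHasSum (fun n => toC (ofPowerSeries (q i) (f i)) n) (s.re : ℂ)
      ((R i : ℝ) : ℂ) := by
    intro i
    rw [hloc i]
    refine lseriesHasSum_ofPowerSeries (hq i) _ _ _ ?_
    have h3 := Complex.hasSum_ofReal.mpr (hR i)
    have e : (fun k => (PowerSeries.coeff k) ((PowerSeries.map Complex.ofRealHom) (f i)) *
        (((q i : ℕ) : ℂ) ^ (-(s.re : ℂ))) ^ k) =
        fun k : ℕ => (((f i).coeff k * ((q i : ℝ) ^ (-s.re)) ^ k : ℝ) : ℂ) := by
      funext k
      have : (((q i : ℕ) : ℂ) ^ (-(s.re : ℂ))) = (((q i : ℝ) ^ (-s.re) : ℝ) : ℂ) := by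
        rw [Complex.ofReal_cpow (by positivity)]
        push_cast
        rfl
      rw [this]
      simp
    rw [e]
    exact h3
  have hLP : ∀ S : Finset ι, HasSum (fun n => (∏ i ∈ S, ofPowerSeries (q i) (f i)) n *
      (n : ℝ) ^ (-s.re)) (∏ i ∈ S, R i) := by
    intro S
    have h1 := lseriesHasSum_prod S hLG
    rw [← toC_prod] at h1
    have h2 : HasSum (fun n => (((∏ i ∈ S, ofPowerSeries (q i) (f i)) n *
        (n : ℝ) ^ (-s.re) : ℝ) : ℂ)) ((∏ i ∈ S, R i : ℝ) : ℂ) := by
      rw [Complex.ofReal_prod]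
      unfold LSeriesHasSum at h1
      have e : (fun n => (((∏ i ∈ S, ofPowerSeries (q i) (f i)) n * (n : ℝ) ^ (-s.re) : ℝ) : ℂ)) =
          LSeries.term (fun n => toC (∏ i ∈ S, ofPowerSeries (q i) (f i)) n) (s.re : ℂ) := by
        funext n
        rcases eq_or_ne n 0 with rfl | hn
        · simp
        · rw [LSeries.term_of_ne_zero hn, toC_apply, div_eq_mul_inv, ← Complex.cpow_neg]
          push_cast
          congr 1
          rw [Complex.ofReal_cpow (by positivity)]
          push_cast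
          rfl
      rw [e]
      exact h1
    exact Complex.hasSum_ofReal.mp h2
  have hEsum : Summable fun n => EP q f n * (n : ℝ) ^ (-s.re) := by
    have hnn : ∀ n, 0 ≤ EP q f n * (n : ℝ) ^ (-s.re) := fun n =>
      mul_nonneg (EP_nonneg q hq f hf h0 n) (Real.rpow_nonneg (by positivity) _)
    refine summable_of_sum_le (c := B) hnn fun N => ?_
    have hev : ∀ᶠ S : Finset ι in atTop, ∀ n ∈ N,
        (∏ i ∈ S, ofPowerSeries (q i) (f i)) n = EP q f n := by
      rw [Filter.eventually_all_finset]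
      exact fun n _ => EP_eventually q f hf n
    obtain ⟨S, hS⟩ := hev.exists
    calc ∑ n ∈ N, EP q f n * (n : ℝ) ^ (-s.re)
        = ∑ n ∈ N, (∏ i ∈ S, ofPowerSeries (q i) (f i)) n * (n : ℝ) ^ (-s.re) :=
          Finset.sum_congr rfl fun n hn => by rw [hS n hn]
      _ ≤ ∏ i ∈ S, R i := by
          refine sum_le_hasSum N (fun n _ => ?_) (hLP S)
          exact mul_nonneg (prod_nonneg' S hgn n) (Real.rpow_nonneg (by positivity) _)
      _ ≤ B := hB S
  have hLa : ∀ i, LSeriesHasSum (fun n => toC (ofPowerSeries (q i) (f i)) n) s (F i) := by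
    intro i
    rw [hloc i]
    refine lseriesHasSum_ofPowerSeries (hq i) _ _ _ ?_
    simpa using hF i
  have hbound : ∀ n, ‖LSeries.term (fun n => ((EP q f n : ℝ) : ℂ)) s n‖ ≤
      EP q f n * (n : ℝ) ^ (-s.re) := by
    intro n
    rcases eq_or_ne n 0 with rfl | hn
    · simp
    rw [LSeries.norm_term_eq, if_neg hn, div_eq_mul_inv, ← Real.rpow_neg (by positivity),
      Complex.norm_real, Real.norm_of_nonneg (EP_nonneg q hq f hf h0 n)]
  refine ⟨Summable.of_norm_bounded hEsum hbound, ?_⟩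
  have hmain := tendsto_tsum_of_dominated_convergence
    (𝓕 := (atTop : Filter (Finset ι)))
    (f := fun S n => LSeries.term (fun n => (toC (∏ i ∈ S, ofPowerSeries (q i) (f i))) n) s n)
    (g := fun n => LSeries.term (fun n => ((EP q f n : ℝ) : ℂ)) s n)
    (bound := fun n => EP q f n * (n : ℝ) ^ (-s.re)) hEsum ?_ ?_
  · have e : (fun S : Finset ι => ∑' n, LSeries.term (fun n =>
        (toC (∏ i ∈ S, ofPowerSeries (q i) (f i))) n) s n) = fun S => ∏ i ∈ S, F i := by
      funext S
      rw [toC_prod]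
      exact (lseriesHasSum_prod S hLa).tsum_eq
    rw [e] at hmain
    exact hmain
  · intro n
    refine tendsto_const_nhds.congr' ?_
    refine (EP_eventually q f hf n).mono fun S hS => ?_
    rcases eq_or_ne n 0 with rfl | hn
    · simp
    simp only [LSeries.term_of_ne_zero hn]
    rw [← hS, toC_apply]
  · refine Eventually.of_forall fun S n => ?_
    rcases eq_or_ne n 0 with rfl | hn
    · simp
    rw [LSeries.norm_term_eq, if_neg hn, div_eq_mul_inv, ← Real.rpow_neg (by positivity)]
    refine mul_le_mul_of_nonneg_right ?_ (Real.rpow_nonneg (by positivity) _)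
    rw [toC_apply, Complex.norm_real, Real.norm_of_nonneg (prod_nonneg' S hgn n)]
    exact prod_le_EP q hq f hf h0 S n

end nonneg

end Pool.Agent.MPfb225e.Landau
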