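import Mathlib
import Pool.Agent.Lib.MP_fb225e_nt.Local

/-!
MP_fb225e_nt, project (A), module L, part 1: the local factors
`1 / ((1 - α T) (1 - β T) (1 - r T) ^ 2)` have nonnegative coefficients.
-/

namespace Pool.Agent.MPfb225e.Landau

open Local PowerSeries

/-- real geometric series -/
noncomputable def rgeo (r : ℝ) : PowerSeries ℝ := PowerSeries.mk fun k => r ^ k

theorem map_rgeo (r : ℝ) : PowerSeries.map Complex.ofRealHom (rgeo r) = geo (r : ℂ) := by
  ext n
  simp [rgeo, geo]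

/-- the local factor -/
noncomputable def hh (a b : ℤ) (r : ℝ) : PowerSeries ℝ :=
  PowerSeries.map (Int.castRingHom ℝ) (lps a b) * (rgeo r * rgeo r)

theorem map_hh (a b : ℤ) (r : ℝ) (α β : ℂ) (h1 : α + β = a) (h2 : α * β = b) :
    PowerSeries.map Complex.ofRealHom (hh a b r) =
      geo α * geo β * (geo (r : ℂ) * geo (r : ℂ)) := by
  unfold hh
  rw [map_mul, map_mul, map_rgeo, ← map_lps a b α β h1 h2]
  congr 1

theorem constantCoeff_hh (a b : ℤ) (r : ℝ) : (hh a b r).constantCoeff = 1 := by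
  unfold hh
  rw [map_mul, map_mul]
  have h1 : (rgeo r).constantCoeff = 1 := by
    rw [← PowerSeries.coeff_zero_eq_constantCoeff_apply]
    simp [rgeo]
  have h2 : (PowerSeries.map (Int.castRingHom ℝ) (lps a b)).constantCoeff = 1 := by
    rw [← PowerSeries.coeff_zero_eq_constantCoeff_apply, PowerSeries.coeff_map,
      PowerSeries.coeff_zero_eq_constantCoeff_apply, constantCoeff_lps]
    simp
  rw [h1, h2]
  norm_num

theorem deriv_geo (γ : ℂ) : d⁄dX ℂ (geo γ) = PowerSeries.C γ * geo γ * geo γ := by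
  ext n
  rw [PowerSeries.coeff_derivative, mul_assoc, PowerSeries.coeff_C_mul, PowerSeries.coeff_mul]
  have h1 : ∀ x ∈ Finset.HasAntidiagonal.antidiagonal n,
      PowerSeries.coeff x.1 (geo γ) * PowerSeries.coeff x.2 (geo γ) = γ ^ n := by
    intro x hx
    rw [Finset.HasAntidiagonal.mem_antidiagonal] at hx
    simp only [geo, PowerSeries.coeff_mk]
    rw [← pow_add, hx]
  rw [Finset.sum_congr rfl h1, Finset.sum_const, Finset.Nat.card_antidiagonal, nsmul_eq_mul]
  simp only [geo, PowerSeries.coeff_mk]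
  push_cast
  ring

theorem deriv_prod (α β γ : ℂ) : d⁄dX ℂ (geo α * geo β * (geo γ * geo γ)) =
    (geo α * geo β * (geo γ * geo γ)) *
      (PowerSeries.C α * geo α + PowerSeries.C β * geo β + 2 * (PowerSeries.C γ * geo γ)) := by
  rw [Derivation.leibniz, Derivation.leibniz, Derivation.leibniz, deriv_geo, deriv_geo, deriv_geo]
  simp only [smul_eq_mul]
  ring

theorem recursion (α β γ : ℂ) (n : ℕ) :
    PowerSeries.coeff (n + 1) (geo α * geo β * (geo γ * geo γ)) * (n + 1) =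
      ∑ x ∈ Finset.HasAntidiagonal.antidiagonal n,
        PowerSeries.coeff x.1 (geo α * geo β * (geo γ * geo γ)) *
          (α ^ (x.2 + 1) + β ^ (x.2 + 1) + 2 * γ ^ (x.2 + 1)) := by
  rw [← PowerSeries.coeff_derivative, deriv_prod, PowerSeries.coeff_mul]
  refine Finset.sum_congr rfl fun x _ => ?_
  congr 1
  have h2 : (2 : PowerSeries ℂ) = PowerSeries.C (2 : ℂ) := by
    rw [map_ofNat]
  rw [map_add, map_add, h2, PowerSeries.coeff_C_mul, PowerSeries.coeff_C_mul,
    PowerSeries.coeff_C_mul, PowerSeries.coeff_C_mul]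
  simp only [geo, PowerSeries.coeff_mk]
  ring

theorem psum_real (a b : ℤ) (α β : ℂ) (h1 : α + β = a) (h2 : α * β = b) (n : ℕ) :
    ∃ x : ℝ, (x : ℂ) = α ^ n + β ^ n := by
  induction n using Nat.strong_induction_on with
  | _ n ih =>
    match n, ih with
    | 0, _ => exact ⟨2, by push_cast; norm_num⟩
    | 1, _ => exact ⟨a, by rw [pow_one, pow_one, h1]; push_cast; rfl⟩
    | n + 2, ih =>
      obtain ⟨x, hx⟩ := ih (n + 1) (by omega)
      obtain ⟨y, hy⟩ := ih n (by omega)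
      refine ⟨a * x - b * y, ?_⟩
      push_cast
      rw [hx, hy, ← h1, ← h2]
      ring

theorem coeff_hh_nonneg (a b : ℤ) (r : ℝ) (α β : ℂ) (h1 : α + β = a) (h2 : α * β = b)
    (hα : ‖α‖ ≤ r) (hβ : ‖β‖ ≤ r) (n : ℕ) : 0 ≤ PowerSeries.coeff n (hh a b r) := by
  have hc : ∀ n, ((PowerSeries.coeff n (hh a b r) : ℝ) : ℂ) =
      PowerSeries.coeff n (geo α * geo β * (geo (r : ℂ) * geo (r : ℂ))) := by
    intro n
    rw [← map_hh a b r α β h1 h2, PowerSeries.coeff_map]
    rfl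
  have hr : 0 ≤ r := (norm_nonneg _).trans hα
  choose x hx using psum_real a b α β h1 h2
  have hxb : ∀ n, 0 ≤ x n + 2 * r ^ n := by
    intro n
    have h3 : |x n| ≤ 2 * r ^ n := by
      have h4 : |x n| = ‖((x n : ℝ) : ℂ)‖ := by rw [Complex.norm_real, Real.norm_eq_abs]
      rw [h4, hx]
      refine (norm_add_le _ _).trans ?_
      rw [norm_pow, norm_pow]
      have := pow_le_pow_left₀ (norm_nonneg _) hα n
      have := pow_le_pow_left₀ (norm_nonneg _) hβ n
      linarith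
    have := neg_abs_le (x n)
    linarith
  induction n using Nat.strong_induction_on with
  | _ n ih =>
    match n, ih with
    | 0, _ =>
      rw [PowerSeries.coeff_zero_eq_constantCoeff_apply, constantCoeff_hh]
      norm_num
    | n + 1, ih =>
      have h3 : PowerSeries.coeff (n + 1) (hh a b r) * ((n : ℝ) + 1) =
          ∑ y ∈ Finset.HasAntidiagonal.antidiagonal n,
            PowerSeries.coeff y.1 (hh a b r) * (x (y.2 + 1) + 2 * r ^ (y.2 + 1)) := by
        apply Complex.ofReal_injective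
        push_cast
        rw [hc, recursion]
        refine Finset.sum_congr rfl fun y _ => ?_
        rw [hc, hx]
      have h4 : 0 ≤ PowerSeries.coeff (n + 1) (hh a b r) * ((n : ℝ) + 1) := by
        rw [h3]
        refine Finset.sum_nonneg fun y hy => ?_
        rw [Finset.HasAntidiagonal.mem_antidiagonal] at hy
        exact mul_nonneg (ih y.1 (by omega)) (hxb _)
      have h5 : (0 : ℝ) < (n : ℝ) + 1 := by positivity
      exact nonneg_of_mul_nonneg_left h4 h5

/-! ### Evaluation -/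

theorem hasSum_geo {γ z : ℂ} (h : ‖γ * z‖ < 1) :
    HasSum (fun k => PowerSeries.coeff k (geo γ) * z ^ k) (1 - γ * z)⁻¹ := by
  have h1 := hasSum_geometric_of_norm_lt_one h
  have e : (fun k => PowerSeries.coeff k (geo γ) * z ^ k) = fun k => (γ * z) ^ k := by
    funext k
    simp only [geo, PowerSeries.coeff_mk]
    rw [mul_pow]
  rw [e]
  exact h1

theorem hasSum_mul {f g : PowerSeries ℂ} {z F G : ℂ}
    (hf : HasSum (fun k => PowerSeries.coeff k f * z ^ k) F)
    (hg : HasSum (fun k => PowerSeries.coeff k g * z ^ k) G) :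
    HasSum (fun k => PowerSeries.coeff k (f * g) * z ^ k) (F * G) := by
  have s1 := hf.summable.norm
  have s2 := hg.summable.norm
  have e : (fun k => PowerSeries.coeff k (f * g) * z ^ k) =
      fun n => ∑ kl ∈ Finset.HasAntidiagonal.antidiagonal n,
        (PowerSeries.coeff kl.1 f * z ^ kl.1) * (PowerSeries.coeff kl.2 g * z ^ kl.2) := by
    funext k
    rw [PowerSeries.coeff_mul, Finset.sum_mul]
    refine Finset.sum_congr rfl fun x hx => ?_
    rw [Finset.HasAntidiagonal.mem_antidiagonal] at hx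
    rw [← hx, pow_add]
    ring
  rw [e]
  have s3 := (summable_norm_sum_mul_antidiagonal_of_summable_norm s1 s2).of_norm
  have s4 := tsum_mul_tsum_eq_tsum_sum_antidiagonal_of_summable_norm s1 s2
  rw [hf.tsum_eq, hg.tsum_eq] at s4
  rw [s4]
  exact s3.hasSum

/-- the value of the local factor -/
noncomputable def val (α β : ℂ) (r : ℝ) (z : ℂ) : ℂ :=
  ((1 - α * z)⁻¹ * (1 - β * z)⁻¹) * ((1 - r * z)⁻¹ * (1 - r * z)⁻¹)

theorem hasSum_hh (a b : ℤ) (r : ℝ) (α β : ℂ) (h1 : α + β = a) (h2 : α * β = b)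
    (hα : ‖α‖ ≤ r) (hβ : ‖β‖ ≤ r) {z : ℂ} (hz : r * ‖z‖ < 1) :
    HasSum (fun k => ((PowerSeries.coeff k (hh a b r) : ℝ) : ℂ) * z ^ k) (val α β r z) := by
  have hr : 0 ≤ r := (norm_nonneg _).trans hα
  have e : (fun k => ((PowerSeries.coeff k (hh a b r) : ℝ) : ℂ) * z ^ k) = fun k =>
      PowerSeries.coeff k (geo α * geo β * (geo (r : ℂ) * geo (r : ℂ))) * z ^ k := by
    funext k
    rw [← map_hh a b r α β h1 h2, PowerSeries.coeff_map]
    rfl
  rw [e]
  have h3 : ∀ γ : ℂ, ‖γ‖ ≤ r → ‖γ * z‖ < 1 := fun γ hγ => by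
    rw [norm_mul]
    exact lt_of_le_of_lt (mul_le_mul_of_nonneg_right hγ (norm_nonneg _)) hz
  have h4 : ‖(r : ℂ)‖ ≤ r := by rw [Complex.norm_real, Real.norm_of_nonneg hr]
  exact hasSum_mul (hasSum_mul (hasSum_geo (h3 _ hα)) (hasSum_geo (h3 _ hβ)))
    (hasSum_mul (hasSum_geo (h3 _ h4)) (hasSum_geo (h3 _ h4)))

/-- The coefficients are not summable at the edge. -/
theorem not_bounded (a b : ℤ) (r : ℝ) (hr : 0 < r) (α β : ℂ) (h1 : α + β = a) (h2 : α * β = b)
    (hα : ‖α‖ ≤ r) (hβ : ‖β‖ ≤ r) (B : ℝ) :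
    ∃ N : ℕ, B < ∑ k ∈ Finset.range N, PowerSeries.coeff k (hh a b r) * (r⁻¹) ^ k := by
  by_contra hcon
  push Not at hcon
  have h0 := coeff_hh_nonneg a b r α β h1 h2 hα hβ
  have hri : 0 < r⁻¹ := inv_pos.2 hr
  -- for `0 < y < 1`
  have key : ∀ y : ℝ, 0 < y → y < 1 → 1 / 4 * ((1 - y)⁻¹) ^ 2 ≤ B := by
    intro y hy0 hy1
    have hz : r * ‖((r⁻¹ * y : ℝ) : ℂ)‖ < 1 := by
      rw [Complex.norm_real, Real.norm_of_nonneg (by positivity), ← mul_assoc,
        mul_inv_cancel₀ hr.ne', one_mul]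
      exact hy1
    have h3 := hasSum_hh a b r α β h1 h2 hα hβ hz
    have h4 : HasSum (fun k => PowerSeries.coeff k (hh a b r) * (r⁻¹ * y) ^ k)
        ‖val α β r ((r⁻¹ * y : ℝ) : ℂ)‖ := by
      have e : (fun k => ((PowerSeries.coeff k (hh a b r) : ℝ) : ℂ) * ((r⁻¹ * y : ℝ) : ℂ) ^ k) =
          fun k => ((PowerSeries.coeff k (hh a b r) * (r⁻¹ * y) ^ k : ℝ) : ℂ) := by
        funext k; push_cast; rfl
      rw [e] at h3
      have h5 : Summable fun k => PowerSeries.coeff k (hh a b r) * (r⁻¹ * y) ^ k :=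
        Complex.summable_ofReal.1 h3.summable
      have h6 := (Complex.hasSum_ofReal.2 h5.hasSum).unique h3
      rw [← h6, Complex.norm_real, Real.norm_of_nonneg (tsum_nonneg fun k =>
        mul_nonneg (h0 k) (by positivity))]
      exact h5.hasSum
    have h5 : ‖val α β r ((r⁻¹ * y : ℝ) : ℂ)‖ ≤ B := by
      rw [← h4.tsum_eq]
      refine Real.tsum_le_of_sum_range_le (fun k => mul_nonneg (h0 k) (by positivity)) fun N => ?_
      refine le_trans (Finset.sum_le_sum fun k _ => ?_) (hcon N)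
      rw [mul_pow]
      refine mul_le_mul_of_nonneg_left ?_ (h0 k)
      exact mul_le_of_le_one_right (by positivity) (pow_le_one₀ hy0.le hy1.le)
    refine le_trans ?_ h5
    unfold val
    have h6 : ∀ γ : ℂ, ‖γ‖ ≤ r → 1 / 2 ≤ ‖(1 - γ * ((r⁻¹ * y : ℝ) : ℂ))⁻¹‖ := by
      intro γ hγ
      have h7 : ‖γ * ((r⁻¹ * y : ℝ) : ℂ)‖ < 1 := by
        rw [norm_mul]
        exact lt_of_le_of_lt (mul_le_mul_of_nonneg_right hγ (norm_nonneg _)) hz
      have h8 : 1 - γ * ((r⁻¹ * y : ℝ) : ℂ) ≠ 0 := by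
        intro h9
        rw [← sub_eq_zero.1 h9] at h7
        simp at h7
      have h9 : ‖1 - γ * ((r⁻¹ * y : ℝ) : ℂ)‖ ≤ 2 := by
        refine (norm_sub_le _ _).trans ?_
        rw [norm_one]
        linarith
      rw [norm_inv, one_div]
      exact inv_anti₀ (norm_pos_iff.2 h8) h9
    have h7 : ‖(1 - (r : ℂ) * ((r⁻¹ * y : ℝ) : ℂ))⁻¹‖ = (1 - y)⁻¹ := by
      have e : (1 - (r : ℂ) * ((r⁻¹ * y : ℝ) : ℂ)) = ((1 - y : ℝ) : ℂ) := by
        push_cast
        rw [← mul_assoc, mul_inv_cancel₀ (by exact_mod_cast hr.ne'), one_mul]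
      rw [e, norm_inv, Complex.norm_real, Real.norm_of_nonneg (by linarith)]
    rw [norm_mul, norm_mul, norm_mul, h7]
    have h8 := h6 α hα
    have h9 := h6 β hβ
    have h10 : 0 ≤ ((1 - y)⁻¹) ^ 2 := sq_nonneg _
    calc 1 / 4 * ((1 - y)⁻¹) ^ 2 = (1 / 2 * (1 / 2)) * ((1 - y)⁻¹ * (1 - y)⁻¹) := by ring
      _ ≤ _ := mul_le_mul_of_nonneg_right (mul_le_mul h8 h9 (by norm_num) (norm_nonneg _))
          (by nlinarith)
  -- contradiction
  have h3 := key (1 - (2 * (|B| + 1))⁻¹) (by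
    have : (2 * (|B| + 1))⁻¹ < 1 := by
      apply inv_lt_one_of_one_lt₀
      have := abs_nonneg B
      linarith
    linarith) (by
    have : 0 < (2 * (|B| + 1))⁻¹ := by
      have := abs_nonneg B
      positivity
    linarith)
  rw [sub_sub_cancel, inv_inv] at h3
  have h4 := le_abs_self B
  have h5 := abs_nonneg B
  nlinarith

end Pool.Agent.MPfb225e.Landau
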