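import Mathlib
import Pool.Agent.Lib.MP_fb225e_nt.Simple.Interface
import Pool.Agent.Lib.MP_fb225e_nt.Simple.LocalPos
import Pool.Agent.Lib.MP_fb225e_nt.Simple.EulerPos
import Pool.Agent.Lib.MP_fb225e_nt.Simple.Alternating
import Pool.Agent.Lib.MP_fb225e_nt.Curve
import Pool.Agent.Lib.MP_fb225e_nt.Hasse
import Pool.Agent.Lib.MP_fb225e_nt.Zeta

/-!
MP_fb225e_nt, project (A), module L, part 4: the assembly.
-/

namespace Pool.Agent.MPfb225e.Landau

open NumberField IsDedekindDomain LogExp Curve Local Filter Topology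
open ArithmeticFunction (ofPowerSeries eulerProduct)
open scoped ComplexOrder

universe u

/-- A zero of order at least two can be divided out. -/
theorem exists_factor {F : ℂ → ℂ} (hF : Differentiable ℂ F) {c : ℂ}
    (h : 2 ≤ analyticOrderAt F c) :
    ∃ F₂ : ℂ → ℂ, Differentiable ℂ F₂ ∧ ∀ s, F s = (s - c) ^ 2 * F₂ s := by
  have hd : ∀ G : ℂ → ℂ, Differentiable ℂ G → Differentiable ℂ (dslope G c) := fun G hG => by
    rw [← differentiableOn_univ]
    exact (Complex.differentiableOn_dslope univ_mem).2 hG.differentiableOn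
  have hn : ((2 : ℕ) : ℕ∞) ≤ analyticOrderAt F c := by exact_mod_cast h
  rw [natCast_le_analyticOrderAt_iff_iteratedDeriv_eq_zero (hF.analyticAt c)] at hn
  have h0 : F c = 0 := by
    have := hn 0 (by norm_num)
    rwa [iteratedDeriv_zero] at this
  have h1 : deriv F c = 0 := by
    have := hn 1 (by norm_num)
    rwa [iteratedDeriv_one] at this
  have e1 : ∀ s, F s = (s - c) * dslope F c s := fun s => by
    have := sub_smul_dslope F c s
    rw [h0, sub_zero, smul_eq_mul] at this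
    exact this.symm
  have e2 : ∀ s, dslope F c s = (s - c) * dslope (dslope F c) c s := fun s => by
    have := sub_smul_dslope (dslope F c) c s
    rw [dslope_same, h1, sub_zero, smul_eq_mul] at this
    exact this.symm
  refine ⟨dslope (dslope F c) c, hd _ (hd _ hF), fun s => ?_⟩
  rw [e1, e2]
  ring

section euler

variable {K : Type u} [Field K] [NumberField K] {a b : HeightOneSpectrum (𝓞 K) → ℤ}
  {α β : HeightOneSpectrum (𝓞 K) → ℂ}
  (D : Data (qv (K := K)) a b α β (fun v => √(qv v)) ∅)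

/-- the local series -/
noncomputable def hv (a b : HeightOneSpectrum (𝓞 K) → ℤ) (v : HeightOneSpectrum (𝓞 K)) :
    PowerSeries ℝ := hh (a v) (b v) √(qv v)

theorem hv_const (a b : HeightOneSpectrum (𝓞 K) → ℤ) (v : HeightOneSpectrum (𝓞 K)) :
    (hv a b v).constantCoeff = 1 := constantCoeff_hh _ _ _

include D in
theorem hv_nonneg (v : HeightOneSpectrum (𝓞 K)) (k : ℕ) : 0 ≤ (hv a b v).coeff k :=
  coeff_hh_nonneg _ _ _ _ _ (D.hadd v) (D.hmul v) (D.hα v) (D.hβ v) k

theorem sqrt_mul_norm {s : ℂ} (hs : 3 / 2 < s.re) (v : HeightOneSpectrum (𝓞 K)) :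
    √(qv v : ℝ) * ‖(qv v : ℂ) ^ (-s)‖ ≤ 1 / 2 := by
  have hq0 : (0 : ℝ) < qv v := by exact_mod_cast (lt_trans Nat.zero_lt_one (one_lt_qv v))
  rw [norm_cpow_neg (one_lt_qv v), Real.sqrt_eq_rpow, ← Real.rpow_add hq0]
  have h1 := Zeta.r_le (K := K) (s := s - 1 / 2) (by
    rw [Complex.sub_re]
    norm_num
    linarith) v
  have e : (1 / 2 : ℝ) + -s.re = -(s - 1 / 2).re := by
    rw [Complex.sub_re]
    norm_num
    ring
  rw [e]
  exact h1

theorem cpow_shift (s : ℂ) (v : HeightOneSpectrum (𝓞 K)) :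
    ((√(qv v : ℝ) : ℝ) : ℂ) * (qv v : ℂ) ^ (-s) = (qv v : ℂ) ^ (-(s - 1 / 2)) := by
  have hq0 : (qv v : ℂ) ≠ 0 := by
    have := one_lt_qv v
    exact_mod_cast (by omega : qv v ≠ 0)
  have h1 : ((√(qv v : ℝ) : ℝ) : ℂ) = (qv v : ℂ) ^ (1 / 2 : ℂ) := by
    rw [Real.sqrt_eq_rpow, Complex.ofReal_cpow (by positivity)]
    push_cast
    rfl
  rw [h1, ← Complex.cpow_add _ _ hq0]
  congr 1
  ring

include D in
theorem hasSum_hv {s : ℂ} (hs : 3 / 2 < s.re) (v : HeightOneSpectrum (𝓞 K)) :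
    HasSum (fun k => (((hv a b v).coeff k : ℝ) : ℂ) * ((qv v : ℂ) ^ (-s)) ^ k)
      (fac (qv (K := K)) α β s v * ((1 - (qv v : ℂ) ^ (-(s - 1 / 2)))⁻¹ *
        (1 - (qv v : ℂ) ^ (-(s - 1 / 2)))⁻¹)) := by
  have h1 := hasSum_hh (a v) (b v) √(qv v) (α v) (β v) (D.hadd v) (D.hmul v) (D.hα v) (D.hβ v)
    (z := (qv v : ℂ) ^ (-s)) (lt_of_le_of_lt (sqrt_mul_norm hs v) (by norm_num))
  unfold val at h1
  rw [cpow_shift] at h1
  exact h1

include D in
/-- The Dirichlet series with nonnegative coefficients. -/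
theorem lseries_EP {s : ℂ} (hs : 3 / 2 < s.re) :
    LSeriesSummable (fun n => ((EP (qv (K := K)) (hv a b) n : ℝ) : ℂ)) s ∧
    LSeries (fun n => ((EP (qv (K := K)) (hv a b) n : ℝ) : ℂ)) s =
      L (qv (K := K)) a b s * (zetaK K (s - 1 / 2)) ^ 2 := by
  classical
  set σ : ℂ := (s.re : ℂ) with hσ
  have hσre : σ.re = s.re := Complex.ofReal_re _
  have hσ32 : 3 / 2 < σ.re := by rw [hσre]; exact hs
  -- real values
  have hR : ∀ v : HeightOneSpectrum (𝓞 K), Summable fun k =>
      (hv a b v).coeff k * ((qv v : ℝ) ^ (-s.re)) ^ k := by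
    intro v
    have h1 := (hasSum_hv D hσ32 v).summable
    have e : (fun k => (((hv a b v).coeff k : ℝ) : ℂ) * ((qv v : ℂ) ^ (-σ)) ^ k) =
        fun k => (((hv a b v).coeff k * ((qv v : ℝ) ^ (-s.re)) ^ k : ℝ) : ℂ) := by
      funext k
      have : (qv v : ℂ) ^ (-σ) = (((qv v : ℝ) ^ (-s.re) : ℝ) : ℂ) := by
        rw [Complex.ofReal_cpow (by positivity), hσ]
        push_cast
        rfl
      rw [this]
      push_cast
      rfl
    rw [e] at h1
    exact Complex.summable_ofReal.1 h1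
  set R : HeightOneSpectrum (𝓞 K) → ℝ := fun v => ∑' k,
      (hv a b v).coeff k * ((qv v : ℝ) ^ (-s.re)) ^ k with hRdef
  have hRle : ∀ v, R v ≤ Real.exp (8 * (√(qv v : ℝ) * (qv v : ℝ) ^ (-s.re))) := by
    intro v
    have h1 : ((R v : ℝ) : ℂ) = fac (qv (K := K)) α β σ v * ((1 - (qv v : ℂ) ^ (-(σ - 1 / 2)))⁻¹ *
        (1 - (qv v : ℂ) ^ (-(σ - 1 / 2)))⁻¹) := by
      have h2 := hasSum_hv D hσ32 v
      have e : (fun k => (((hv a b v).coeff k : ℝ) : ℂ) * ((qv v : ℂ) ^ (-σ)) ^ k) =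
        fun k => (((hv a b v).coeff k * ((qv v : ℝ) ^ (-s.re)) ^ k : ℝ) : ℂ) := by
        funext k
        have : (qv v : ℂ) ^ (-σ) = (((qv v : ℝ) ^ (-s.re) : ℝ) : ℂ) := by
          rw [Complex.ofReal_cpow (by positivity), hσ]
          push_cast
          rfl
        rw [this]
        push_cast
        rfl
      rw [e] at h2
      exact (Complex.hasSum_ofReal.2 (hR v).hasSum).unique h2
    set r : ℝ := √(qv v : ℝ) * (qv v : ℝ) ^ (-s.re) with hr
    have hr0 : 0 ≤ r := mul_nonneg (Real.sqrt_nonneg _) (Real.rpow_nonneg (by positivity) _)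
    have hr1 : r ≤ 1 / 2 := by
      have := sqrt_mul_norm (K := K) hσ32 v
      rwa [norm_cpow_neg (one_lt_qv v), hσre] at this
    have hf : ∀ w : ℂ, ‖w‖ ≤ r → ‖(1 - w)⁻¹‖ ≤ (1 - r)⁻¹ := by
      intro w hw
      rw [norm_inv]
      refine inv_anti₀ (by linarith) ?_
      have h3 := norm_sub_norm_le (1 : ℂ) w
      rw [norm_one] at h3
      linarith
    have hw1 : ‖α v * (qv v : ℂ) ^ (-σ)‖ ≤ r := by
      have := D.norm_α (s := σ) v
      rwa [hσre] at this
    have hw2 : ‖β v * (qv v : ℂ) ^ (-σ)‖ ≤ r := by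
      have := D.norm_β (s := σ) v
      rwa [hσre] at this
    have hw3 : ‖(qv v : ℂ) ^ (-(σ - 1 / 2))‖ ≤ r := by
      rw [← cpow_shift, norm_mul, Complex.norm_real, Real.norm_of_nonneg (Real.sqrt_nonneg _),
        norm_cpow_neg (one_lt_qv v), hσre]
    have h2 : R v ≤ ‖((R v : ℝ) : ℂ)‖ := by
      rw [Complex.norm_real, Real.norm_eq_abs]
      exact le_abs_self _
    refine h2.trans ?_
    rw [h1, norm_mul, norm_mul]
    unfold fac
    rw [norm_mul]
    have hi : 0 ≤ (1 - r)⁻¹ := by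
      have : 0 < 1 - r := by linarith
      positivity
    have h3 := mul_le_mul (hf _ hw1) (hf _ hw2) (norm_nonneg _) hi
    have h4 := mul_le_mul (hf _ hw3) (hf _ hw3) (norm_nonneg _) hi
    have h5 := mul_le_mul h3 h4 (by positivity) (by positivity)
    refine h5.trans ?_
    have h6 := Euler.inv_one_sub_le hr0 hr1 (by norm_num : (1 / 2 : ℝ) < 1)
    have h7 := mul_le_mul h6 h6 (by positivity) (Real.exp_pos _).le
    rw [← Real.exp_add] at h7
    have e3 : (1 - r)⁻¹ * (1 - r)⁻¹ * ((1 - r)⁻¹ * (1 - r)⁻¹) =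
        ((1 - r)⁻¹) ^ 2 * ((1 - r)⁻¹) ^ 2 := by ring
    have e4 : 2 / (1 - 1 / 2) * r + 2 / (1 - 1 / 2) * r = 8 * r := by ring
    rw [e3, ← e4]
    exact h7
  have hsumr : Summable fun v : HeightOneSpectrum (𝓞 K) =>
      √(qv v : ℝ) * (qv v : ℝ) ^ (-s.re) := D.summable_r hs
  obtain ⟨h1, h2⟩ := hasProd_EP (qv (K := K)) one_lt_qv (hv a b) (hv_const a b) (hv_nonneg D) s _
    (fun v => hasSum_hv D hs v) R (fun v => (hR v).hasSum)
    (Real.exp (8 * ∑' v : HeightOneSpectrum (𝓞 K), √(qv v : ℝ) * (qv v : ℝ) ^ (-s.re)))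
    (by
      intro S
      have hR0 : ∀ v, 0 ≤ R v := fun v => tsum_nonneg fun k =>
        mul_nonneg (hv_nonneg D v k) (pow_nonneg (Real.rpow_nonneg (by positivity) _) _)
      calc ∏ v ∈ S, R v ≤ ∏ v ∈ S, Real.exp (8 * (√(qv v : ℝ) * (qv v : ℝ) ^ (-s.re))) :=
            Finset.prod_le_prod (fun v _ => hR0 v) fun v _ => hRle v
        _ = Real.exp (8 * ∑ v ∈ S, (√(qv v : ℝ) * (qv v : ℝ) ^ (-s.re))) := by
            rw [← Real.exp_sum, Finset.mul_sum]
        _ ≤ _ := by
            apply Real.exp_le_exp.mpr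
            refine mul_le_mul_of_nonneg_left ?_ (by norm_num)
            exact hsumr.sum_le_tsum S fun v _ => mul_nonneg (Real.sqrt_nonneg _)
              (Real.rpow_nonneg (by positivity) _))
  refine ⟨h1, ?_⟩
  have hz : 1 < (s - 1 / 2).re := by
    rw [Complex.sub_re]
    norm_num
    linarith
  have h3 := Zeta.hasProd (K := K) hz
  have h4 := (D.hasProd hs).mul (h3.mul h3)
  rw [h2.unique h4]
  unfold zetaK
  rw [pow_two]
  rfl

end euler

/-- there is a finite place -/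
theorem exists_place (K : Type u) [Field K] [NumberField K] :
    Nonempty (HeightOneSpectrum (𝓞 K)) := by
  obtain ⟨M, hM⟩ := Ideal.exists_maximal (𝓞 K)
  have hne : M ≠ ⊥ := Ring.ne_bot_of_isMaximal_of_not_isField hM (RingOfIntegers.not_isField K)
  exact ⟨⟨M, hM.isPrime, hne⟩⟩

/-- a smooth bump -/
theorem exists_bump : ∃ φ : ℝ → ℝ, Weight φ ∧ (∀ u, 0 ≤ φ u) ∧ φ (1 / 2) ≠ 0 := by
  obtain ⟨f, h1, h2, h3, h4, h5⟩ := exists_contDiff_tsupport_subset (E := ℝ) (s := Set.Ioi 0)
    (x := 1 / 2) (n := ⊤) (Ioi_mem_nhds (by norm_num))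
  refine ⟨f, ⟨h3, h2, fun u hu => ?_⟩, fun u => ?_, ?_⟩
  · exact h1 (subset_tsupport f hu)
  · exact (h4 ⟨u, rfl⟩).1
  · rw [h5]; exact one_ne_zero

/-- **MODULE L.** -/
theorem simpleAtEdge (K : Type u) [Field K] [NumberField K] (hZ : ZetaPhi K) :
    SimpleAtEdge K := by
  classical
  intro W _ F hF hFL
  by_contra hcon
  push Not at hcon
  have hord : 2 ≤ analyticOrderAt F (3 / 2) := by
    have := Order.add_one_le_of_lt hcon
    rwa [one_add_one_eq_two] at this
  obtain ⟨F₂, hF₂, hfac⟩ := exists_factor hF hord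
  -- the local data
  have hloc : ∀ v : HeightOneSpectrum (𝓞 K), _ := fun v =>
    local_data (v.adicCompletionIntegers K) (W.baseChange (v.adicCompletion K)) hasse_module.{u}
  choose a b α β h1 h2 h3 h4 h5 h6 using hloc
  have D : Data (qv (K := K)) a b α β (fun v => if v ∈ exc K then (qv v : ℝ) else √(qv v))
      (exc K) := by
    refine ⟨one_lt_qv, fun σ hσ => Zeta.summable_qv K hσ, finite_exc, h2, h3, ?_, ?_, ?_, ?_⟩
    · intro v
      split_ifs with hv
      · exact h4 v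
      · rw [exc, Set.mem_ofPred_eq, not_or] at hv
        exact (h6 v hv.1 hv.2).1
    · intro v
      split_ifs with hv
      · exact h5 v
      · rw [exc, Set.mem_ofPred_eq, not_or] at hv
        exact (h6 v hv.1 hv.2).2
    · intro v
      split_ifs with hv
      · exact le_rfl
      · have : (1 : ℝ) ≤ qv v := by exact_mod_cast (one_lt_qv v).le
        rw [Real.sqrt_le_left (by linarith)]
        nlinarith
    · intro v hv
      rw [if_neg hv]
  have hL : ∀ s, W.LSeries s = L (qv (K := K)) a b s := by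
    intro s
    have e : W.LFunction = eulerProduct fun v : HeightOneSpectrum (𝓞 K) =>
        ofPowerSeries (qv v) (lps (a v) (b v)) := by
      unfold WeierstrassCurve.LFunction
      congr 1
      funext v
      unfold WeierstrassCurve.localEulerFactor WeierstrassCurve.localPowerSeries lps
      rw [h1 v]
      rfl
    unfold WeierstrassCurve.LSeries L
    rw [e]
    rfl
  -- the modified data
  set a' : HeightOneSpectrum (𝓞 K) → ℤ := fun v => if v ∈ exc K then 0 else a v with ha'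
  set b' : HeightOneSpectrum (𝓞 K) → ℤ := fun v => if v ∈ exc K then 0 else b v with hb'
  set α' : HeightOneSpectrum (𝓞 K) → ℂ := fun v => if v ∈ exc K then 0 else α v with hα'
  set β' : HeightOneSpectrum (𝓞 K) → ℂ := fun v => if v ∈ exc K then 0 else β v with hβ'
  have D' : Data (qv (K := K)) a' b' α' β' (fun v => √(qv v)) ∅ := by
    refine ⟨one_lt_qv, fun σ hσ => Zeta.summable_qv K hσ, Set.finite_empty, ?_, ?_, ?_, ?_, ?_, ?_⟩
    · intro v
      simp only [ha', hα', hβ']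
      split_ifs
      · simp
      · exact h2 v
    · intro v
      simp only [hb', hα', hβ']
      split_ifs
      · simp
      · exact h3 v
    · intro v
      simp only [hα']
      split_ifs with hv
      · rw [norm_zero]; exact Real.sqrt_nonneg _
      · rw [exc, Set.mem_ofPred_eq, not_or] at hv
        exact (h6 v hv.1 hv.2).1
    · intro v
      simp only [hβ']
      split_ifs with hv
      · rw [norm_zero]; exact Real.sqrt_nonneg _
      · rw [exc, Set.mem_ofPred_eq, not_or] at hv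
        exact (h6 v hv.1 hv.2).2
    · intro v
      have : (1 : ℝ) ≤ qv v := by exact_mod_cast (one_lt_qv v).le
      rw [Real.sqrt_le_left (by linarith)]
      nlinarith
    · intro v _
      rfl
  -- the finitely many removed factors
  set Zf : Finset (HeightOneSpectrum (𝓞 K)) := (finite_exc (K := K)).toFinset with hZf
  have hmemZ : ∀ v, v ∈ Zf ↔ v ∈ exc K := fun v => (finite_exc (K := K)).mem_toFinset
  set P : ℂ → ℂ := fun s => ∏ v ∈ Zf, ((1 - α v * (qv v : ℂ) ^ (-s)) *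
    (1 - β v * (qv v : ℂ) ^ (-s))) with hP
  have hPdiff : Differentiable ℂ P := by
    rw [hP]
    refine Differentiable.fun_finsetProd fun v _ => ?_
    have hq0 : (qv v : ℂ) ≠ 0 := by
      have := one_lt_qv v
      exact_mod_cast (by omega : qv v ≠ 0)
    have hc : Differentiable ℂ fun s : ℂ => (qv v : ℂ) ^ (-s) := fun s =>
      differentiableAt_id.neg.const_cpow (Or.inl hq0)
    exact ((differentiable_const _).sub ((differentiable_const _).mul hc)).mul
      ((differentiable_const _).sub ((differentiable_const _).mul hc))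
  have hL' : ∀ s : ℂ, 3 / 2 < s.re → L (qv (K := K)) a' b' s = F s * P s := by
    intro s hs
    have e1 := D.hasProd hs
    have e2 := D'.hasProd hs
    have e3 : HasProd (fun v => if v ∈ Zf then ((1 - α v * (qv v : ℂ) ^ (-s)) *
        (1 - β v * (qv v : ℂ) ^ (-s))) else 1) (P s) := by
      have h7 : HasProd (fun v => if v ∈ Zf then ((1 - α v * (qv v : ℂ) ^ (-s)) *
          (1 - β v * (qv v : ℂ) ^ (-s))) else 1) (∏ v ∈ Zf, if v ∈ Zf then
          ((1 - α v * (qv v : ℂ) ^ (-s)) * (1 - β v * (qv v : ℂ) ^ (-s))) else 1) :=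
        hasProd_prod_of_ne_finset_one (fun v hv => if_neg hv)
      rwa [Finset.prod_congr rfl fun v hv => if_pos hv] at h7
    have e4 := e1.mul e3
    have e5 : (fun v => fac (qv (K := K)) α β s v * (if v ∈ Zf then
        ((1 - α v * (qv v : ℂ) ^ (-s)) * (1 - β v * (qv v : ℂ) ^ (-s))) else 1)) =
        fac (qv (K := K)) α' β' s := by
      funext v
      obtain ⟨n1, n2⟩ := D.one_sub_ne hs v
      unfold fac
      by_cases hv : v ∈ Zf
      · have hv' := (hmemZ v).1 hv
        simp only [hα', hβ', if_pos hv, if_pos hv', zero_mul, sub_zero, inv_one, mul_one]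
        rw [mul_mul_mul_comm, inv_mul_cancel₀ n1, inv_mul_cancel₀ n2, one_mul]
      · have hv' : v ∉ exc K := fun h => hv ((hmemZ v).2 h)
        simp only [hα', hβ', if_neg hv, if_neg hv', mul_one]
    rw [e5] at e4
    rw [e2.unique e4, ← hL, hFL s hs]
  -- the entire function
  obtain ⟨φ, hφ, hφ0, hφ1⟩ := exists_bump
  obtain ⟨Z, hZd, hZe⟩ := hZ φ hφ
  set ψ : ℝ → ℝ := fun u => φ u * Real.exp (u / 2) with hψ
  have hφc : Continuous φ := hφ.smooth.continuous
  have hψc : Continuous ψ := by fun_prop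
  have hψs : HasCompactSupport ψ := hφ.compact.mul_right
  have hψ0 : ∀ u, 0 ≤ ψ u := fun u => mul_nonneg (hφ0 u) (Real.exp_pos _).le
  have hψp : ∀ u, ψ u ≠ 0 → 0 < u := fun u hu => hφ.pos u (left_ne_zero_of_mul hu)
  have hψ1 : ψ (1 / 2) ≠ 0 := mul_ne_zero hφ1 (Real.exp_pos _).ne'
  have hld := lap_differentiable hψc hψs
  set N : ℂ → ℂ := fun s => lap ψ s * lap ψ s with hN
  have hNd : Differentiable ℂ N := hld.mul hld
  have hNCM : ∀ y : ℝ, CM N y := fun y =>
    (lap_CM hψc hψs hψ0 hψp y).mul (lap_CM hψc hψs hψ0 hψp y) (hld.analyticAt _) (hld.analyticAt _)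
  set G : ℂ → ℂ := fun s => F₂ s * P s * (Z (s - 1 / 2)) ^ 2 with hG
  have hGd : Differentiable ℂ G := by
    have h7 : Differentiable ℂ fun s : ℂ => Z (s - 1 / 2) :=
      hZd.comp (differentiable_id.sub_const _)
    exact (hF₂.mul hPdiff).mul (h7.pow 2)
  have hGE : ∀ s : ℂ, 3 / 2 < s.re →
      G s = LSeries (fun n => ((EP (qv (K := K)) (hv a' b') n : ℝ) : ℂ)) s * N s := by
    intro s hs
    rw [(lseries_EP D' hs).2, hL' s hs]
    have hz : 1 < (s - 1 / 2).re := by
      rw [Complex.sub_re]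
      norm_num
      linarith
    have h7 := hZe (s - 1 / 2) hz
    have h8 : (∫ u : ℝ, (φ u : ℂ) * Complex.exp (-((s - 1 / 2) * u))) = lap ψ s :=
      lap_shift φ s
    rw [h8] at h7
    simp only [hG, hN]
    rw [h7, hfac s]
    ring
  have hE0 : ∀ n, 0 ≤ EP (qv (K := K)) (hv a' b') n :=
    EP_nonneg (qv (K := K)) one_lt_qv (hv a' b') (hv_const a' b') (hv_nonneg D')
  have key := fun T : Finset ℕ => lower_bound (fun n => EP (qv (K := K)) (hv a' b') n) hE0
    (fun s hs => (lseries_EP D' hs).1) hNd hNCM hGd hGE (1 / 2) T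
  -- the value at `1/2`
  set ν : ℝ := (∫ u : ℝ, ψ u * Real.exp (-((1 / 2 : ℝ) * u))) with hν
  have hNν : N ((1 / 2 : ℝ) : ℂ) = ((ν * ν : ℝ) : ℂ) := by
    simp only [hN]
    rw [lap_real]
    push_cast
    rfl
  have hνpos : 0 < ν := by
    have := lap_pos hψc hψs hψ0 hψ1 (1 / 2)
    rwa [lap_real, Complex.zero_lt_real] at this
  have hPT : ∀ T : Finset ℕ, PT (fun n => EP (qv (K := K)) (hv a' b') n) T ((1 / 2 : ℝ) : ℂ) =
      ((∑ n ∈ T, EP (qv (K := K)) (hv a' b') n * (n : ℝ) ^ (-(1 / 2 : ℝ)) : ℝ) : ℂ) := by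
    intro T
    unfold PT
    push_cast
    refine Finset.sum_congr rfl fun n _ => ?_
    rcases eq_or_ne n 0 with rfl | hn
    · simp
    · rw [LSeries.term_of_ne_zero hn, div_eq_mul_inv, ← Complex.cpow_neg]
      congr 1
      rw [Complex.ofReal_cpow (by positivity)]
      push_cast
      rfl
  have hbd : ∀ T : Finset ℕ, ∑ n ∈ T, EP (qv (K := K)) (hv a' b') n * (n : ℝ) ^ (-(1 / 2 : ℝ)) ≤
      (G ((1 / 2 : ℝ) : ℂ)).re / (ν * ν) := by
    intro T
    have h7 := key T
    rw [hPT, hNν, ← Complex.ofReal_mul] at h7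
    have h8 := (Complex.le_def.1 h7).1
    rw [Complex.zero_re, Complex.sub_re, Complex.ofReal_re] at h8
    rw [le_div_iff₀ (by positivity)]
    linarith
  -- the contradiction at one place
  obtain ⟨v⟩ := exists_place K
  have hq := one_lt_qv v
  have hqpos : (0 : ℝ) < qv v := by exact_mod_cast (by omega : 0 < qv v)
  obtain ⟨M, hM⟩ := not_bounded (a' v) (b' v) √(qv v) (Real.sqrt_pos.2 hqpos) (α' v) (β' v)
    (D'.hadd v) (D'.hmul v) (D'.hα v) (D'.hβ v) ((G ((1 / 2 : ℝ) : ℂ)).re / (ν * ν))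
  have h7 := hbd ((Finset.range M).image fun k => qv v ^ k)
  rw [Finset.sum_image fun x _ y _ h => Nat.pow_right_injective hq h] at h7
  have h8 : ∑ k ∈ Finset.range M, PowerSeries.coeff k (hh (a' v) (b' v) √(qv v)) *
      ((√(qv v : ℝ))⁻¹) ^ k ≤ ∑ k ∈ Finset.range M, EP (qv (K := K)) (hv a' b') (qv v ^ k) *
        ((qv v ^ k : ℕ) : ℝ) ^ (-(1 / 2 : ℝ)) := by
    refine Finset.sum_le_sum fun k _ => ?_
    have e : ((qv v ^ k : ℕ) : ℝ) ^ (-(1 / 2 : ℝ)) = ((√(qv v : ℝ))⁻¹) ^ k := by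
      push_cast
      rw [Real.sqrt_eq_rpow, ← Real.rpow_neg hqpos.le, ← Real.rpow_natCast, ← Real.rpow_natCast,
        ← Real.rpow_mul hqpos.le, ← Real.rpow_mul hqpos.le, mul_comm]
    rw [e]
    exact mul_le_mul_of_nonneg_right (coeff_le_EP (qv (K := K)) one_lt_qv (hv a' b')
      (hv_const a' b') (hv_nonneg D') v k) (by positivity)
  linarith

end Pool.Agent.MPfb225e.Landau
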