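import Mathlib
import Pool.Agent.Lib.MP_fb225e_nt.Simple.Smooth
import Pool.Agent.Lib.MP_fb225e_nt.Simple.Mellin
import Pool.Agent.Lib.MP_fb225e_nt.Simple.Landau

/-!
MP_fb225e_nt, project (A): the order of vanishing at `3/2` is at most `1`, for every number field.
-/

namespace Pool.Agent.MPfb225e.Simple

open NumberField

universe u

/-- All number fields: the order at `3/2` is at most one. -/
theorem simpleAtEdge (K : Type u) [Field K] [NumberField K] : SimpleAtEdge K :=
  Landau.simpleAtEdge K (Mellin.zetaPhi K (Smooth.smoothCount K))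

theorem analyticOrderNatAt_le_one (K : Type u) [Field K] [NumberField K] (W : WeierstrassCurve K)
    [W.IsElliptic] (F : ℂ → ℂ) (hF : Differentiable ℂ F)
    (hFL : ∀ s : ℂ, 3 / 2 < s.re → F s = W.LSeries s) : analyticOrderNatAt F (3 / 2) ≤ 1 := by
  have h := simpleAtEdge K W F hF hFL
  unfold analyticOrderNatAt
  exact ENat.toNat_le_of_le_natCast (by exact_mod_cast h)

end Pool.Agent.MPfb225e.Simple
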