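import Mathlib
import Pool.Agent.Lib.MP_fb225e_nt.Classify

/-!
MP_fb225e_nt: a zero off the real axis forces many `x_v` to be close to `-2` (Fejer kernel).
-/

namespace Pool.Agent.MPfb225e

open NumberField IsDedekindDomain Filter Topology

universe u

variable {K : Type u} [Field K] [NumberField K]

theorem Mean.sum (hO : Orthogonality K) {ι : Type*} (s : Finset ι)
    {f : ι → HeightOneSpectrum (𝓞 K) → ℝ} {μ : ι → ℝ} (h : ∀ i ∈ s, Mean (f i) (μ i)) :
    Mean (fun v => ∑ i ∈ s, f i v) (∑ i ∈ s, μ i) := by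
  classical
  induction s using Finset.induction_on with
  | empty =>
    simp only [Finset.sum_empty]
    exact mean_const hO 0
  | insert a s ha ih =>
    have h1 := (h a (Finset.mem_insert_self a s)).add hO
      (ih fun i hi => h i (Finset.mem_insert_of_mem hi))
    rw [Finset.sum_insert ha]
    exact h1.congr fun v => by rw [Finset.sum_insert ha]

/-- The Fejer kernel at `t log Nv`, of mean value one. -/
noncomputable def fej (N : ℕ) (t : ℝ) (v : HeightOneSpectrum (𝓞 K)) : ℝ :=
  1 / N * ∑ j ∈ Finset.range N, ∑ l ∈ Finset.range N, cs (((j : ℝ) - l) * t) v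

theorem fej_nonneg (N : ℕ) (t : ℝ) (v : HeightOneSpectrum (𝓞 K)) : 0 ≤ fej N t v := by
  unfold fej
  refine mul_nonneg (by positivity) ?_
  have h1 : ∀ j l : ℕ, cs (((j : ℝ) - l) * t) v =
      Real.cos (j * (t * Real.log (nrm v))) * Real.cos (l * (t * Real.log (nrm v))) +
        Real.sin (j * (t * Real.log (nrm v))) * Real.sin (l * (t * Real.log (nrm v))) := by
    intro j l
    unfold cs
    rw [← Real.cos_sub]
    congr 1
    ring
  have h2 : (∑ j ∈ Finset.range N, ∑ l ∈ Finset.range N, cs (((j : ℝ) - l) * t) v) =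
      (∑ j ∈ Finset.range N, Real.cos (j * (t * Real.log (nrm v)))) ^ 2 +
        (∑ j ∈ Finset.range N, Real.sin (j * (t * Real.log (nrm v)))) ^ 2 := by
    rw [sq, sq, Finset.sum_mul_sum, Finset.sum_mul_sum, ← Finset.sum_add_distrib]
    refine Finset.sum_congr rfl fun j _ => ?_
    rw [← Finset.sum_add_distrib]
    exact Finset.sum_congr rfl fun l _ => h1 j l
  rw [h2]
  positivity

theorem fej_le (N : ℕ) (t : ℝ) (v : HeightOneSpectrum (𝓞 K)) : fej N t v ≤ N := by
  unfold fej
  have h1 : (∑ j ∈ Finset.range N, ∑ l ∈ Finset.range N, cs (((j : ℝ) - l) * t) v) ≤ N * N := by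
    refine le_trans (Finset.sum_le_sum fun j _ => Finset.sum_le_sum fun l _ =>
      Real.cos_le_one _) ?_
    simp
  rcases Nat.eq_zero_or_pos N with h | h
  · subst h
    simp
  · have hN : (0 : ℝ) < N := by exact_mod_cast h
    rw [one_div, inv_mul_le_iff₀ hN]
    exact h1

theorem sum_dl {N : ℕ} (hN : 0 < N) {t : ℝ} (ht : t ≠ 0) :
    1 / (N : ℝ) * ∑ j ∈ Finset.range N, ∑ l ∈ Finset.range N, dl (((j : ℝ) - l) * t) = 1 := by
  have h1 : ∀ j ∈ Finset.range N, (∑ l ∈ Finset.range N, dl (((j : ℝ) - l) * t)) = 1 := by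
    intro j hj
    rw [Finset.sum_eq_single_of_mem j hj]
    · rw [sub_self, zero_mul, dl_zero]
    · intro l _ hl
      refine dl_of_ne (mul_ne_zero (sub_ne_zero.2 fun h => hl ?_) ht)
      exact_mod_cast h.symm
  have hN' : (N : ℝ) ≠ 0 := by positivity
  rw [Finset.sum_congr rfl h1, Finset.sum_const, Finset.card_range, nsmul_eq_mul, mul_one,
    one_div, inv_mul_cancel₀ hN']

theorem mean_fej (hO : Orthogonality K) {N : ℕ} (hN : 0 < N) {t : ℝ} (ht : t ≠ 0) :
    Mean (K := K) (fej N t) 1 := by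
  have h1 := (Mean.sum hO (Finset.range N) fun j _ => Mean.sum hO (Finset.range N)
    fun l _ => mean_cs (K := K) hO (((j : ℝ) - l) * t)).smul (1 / N)
  rw [sum_dl hN ht] at h1
  exact h1

section bias

variable (hO : Orthogonality K) {x : HeightOneSpectrum (𝓞 K) → ℝ} {m : ℝ → ℕ}
  (hx : ∀ v, |x v| ≤ 2)
  (hm : ∀ t, Tendsto (fun ε : ℝ => cosSum x t ε / Real.log (1 / ε)) (𝓝[>] 0) (𝓝 (-(m t : ℝ))))

/-- number of neighbours -/
theorem sum_nbr (N : ℕ) : (∑ j ∈ Finset.range N, ∑ l ∈ Finset.range N,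
    if ((j : ℝ) - l = 1 ∨ (j : ℝ) - l = -1) then (1 : ℝ) else 0) = 2 * (N : ℝ) - 2 + 
      (if N = 0 then 2 else 0) := by
  have h1 : ∀ j l : ℕ, ((j : ℝ) - l = 1 ∨ (j : ℝ) - l = -1) ↔ (j = l + 1 ∨ l = j + 1) := by
    intro j l
    constructor
    · rintro (h | h)
      · left
        have : (j : ℝ) = ((l + 1 : ℕ) : ℝ) := by push_cast; linarith
        exact_mod_cast this
      · right
        have : (l : ℝ) = ((j + 1 : ℕ) : ℝ) := by push_cast; linarith
        exact_mod_cast this
    · rintro (h | h)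
      · left
        rw [h]; push_cast; ring
      · right
        rw [h]; push_cast; ring
  simp only [h1]
  induction N with
  | zero => simp
  | succ n ih =>
    rw [Finset.sum_range_succ]
    have h2 : ∀ j ∈ Finset.range n, (∑ l ∈ Finset.range (n + 1),
        if (j = l + 1 ∨ l = j + 1) then (1 : ℝ) else 0) =
        (∑ l ∈ Finset.range n, if (j = l + 1 ∨ l = j + 1) then (1 : ℝ) else 0) +
          if n = j + 1 then 1 else 0 := by
      intro j hj
      rw [Finset.mem_range] at hj
      rw [Finset.sum_range_succ]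
      congr 1
      have : ¬ j = n + 1 := by omega
      simp only [this, false_or]
    rw [Finset.sum_congr rfl h2, Finset.sum_add_distrib, ih]
    have h3 : (∑ j ∈ Finset.range n, if n = j + 1 then (1 : ℝ) else 0) = if n = 0 then 0 else 1 := by
      rcases Nat.eq_zero_or_pos n with h | h
      · subst h; simp
      · rw [Finset.sum_eq_single_of_mem (n - 1) (Finset.mem_range.2 (by omega)), if_pos (by omega),
          if_neg (by omega)]
        intro b _ hb
        exact if_neg (by omega)
    have h4 : (∑ l ∈ Finset.range (n + 1), if (n = l + 1 ∨ l = n + 1) then (1 : ℝ) else 0) =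
        if n = 0 then 0 else 1 := by
      rcases Nat.eq_zero_or_pos n with h | h
      · subst h; simp
      · rw [Finset.sum_eq_single_of_mem (n - 1) (Finset.mem_range.2 (by omega)), if_pos (by omega),
          if_neg (by omega)]
        intro b hb hb2
        rw [Finset.mem_range] at hb
        exact if_neg (by omega)
    rw [h3, h4]
    rcases Nat.eq_zero_or_pos n with h | h
    · subst h; norm_num
    · rw [if_neg (by omega), if_neg (by omega), if_neg (by omega)]
      push_cast
      ring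

include hO hx hm in
theorem mean_fej_mul {N : ℕ} (hN : 0 < N) {t : ℝ} (ht : t ≠ 0) (h0 : m 0 = 0) (h1 : m t = 1)
    (h2 : ∀ s, m s ≠ 0 → s = t ∨ s = -t) :
    Mean (fun v => fej N t v * (2 + x v)) (2 / N) := by
  have hN' : (N : ℝ) ≠ 0 := by positivity
  have hmt : m (-t) = 1 := by rw [m_neg hO hx hm, h1]
  have hval : ∀ a : ℝ, (m (a * t) : ℝ) = if (a = 1 ∨ a = -1) then 1 else 0 := by
    intro a
    split_ifs with h
    · rcases h with h | h
      · rw [h, one_mul, h1]; norm_num
      · rw [h, neg_one_mul, hmt]; norm_num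
    · have : m (a * t) = 0 := by
        by_contra hcon
        apply h
        rcases h2 _ hcon with h3 | h3
        · left
          have h4 : (a - 1) * t = 0 := by linarith
          rcases mul_eq_zero.1 h4 with h5 | h5
          · linarith
          · exact absurd h5 ht
        · right
          have h4 : (a + 1) * t = 0 := by linarith
          rcases mul_eq_zero.1 h4 with h5 | h5
          · linarith
          · exact absurd h5 ht
      rw [this, Nat.cast_zero]
  have h3 : Mean (fun v => 1 / N * ∑ j ∈ Finset.range N, ∑ l ∈ Finset.range N,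
      x v * cs (((j : ℝ) - l) * t) v)
      (1 / N * ∑ j ∈ Finset.range N, ∑ l ∈ Finset.range N, -(m (((j : ℝ) - l) * t) : ℝ)) :=
    (Mean.sum hO (Finset.range N) fun j _ => Mean.sum hO (Finset.range N)
      fun l _ => mean_x hx hm (((j : ℝ) - l) * t)).smul (1 / N)
  have h4 : (1 / N * ∑ j ∈ Finset.range N, ∑ l ∈ Finset.range N,
      -(m (((j : ℝ) - l) * t) : ℝ)) = -2 + 2 / N := by
    have h5 := sum_nbr N
    rw [if_neg hN.ne', add_zero] at h5
    simp only [hval, Finset.sum_neg_distrib]
    rw [h5]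
    field_simp
    ring
  rw [h4] at h3
  have h6 := ((mean_fej (K := K) hO hN ht).smul 2).add hO h3
  have e : 2 * 1 + (-2 + 2 / (N : ℝ)) = 2 / N := by ring
  rw [e] at h6
  refine h6.congr fun v => ?_
  have h7 : (∑ j ∈ Finset.range N, ∑ l ∈ Finset.range N, x v * cs (((j : ℝ) - l) * t) v) =
      x v * ∑ j ∈ Finset.range N, ∑ l ∈ Finset.range N, cs (((j : ℝ) - l) * t) v := by
    rw [Finset.mul_sum]
    exact Finset.sum_congr rfl fun j _ => (Finset.mul_sum _ _ _).symm
  rw [h7]
  unfold fej
  ring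

include hO hx hm in
/-- **The bias.** -/
theorem bias {t : ℝ} (ht : t ≠ 0) (h0 : m 0 = 0) (h1 : m t = 1)
    (h2 : ∀ s, m s ≠ 0 → s = t ∨ s = -t) {η : ℝ} (hη : 0 < η) (hη1 : η ≤ 1) :
    ∀ᶠ ε : ℝ in 𝓝[>] 0, η / 12 * Real.log (1 / ε) ≤
      ∑' v, {v | x v < -2 + η}.indicator (fun v => nrm v ^ (-(1 + ε))) v := by
  set N : ℕ := ⌈4 / η⌉₊ with hN
  have hN1 : 4 / η ≤ N := Nat.le_ceil _
  have hN2 : (N : ℝ) < 4 / η + 1 := Nat.ceil_lt_add_one (by positivity)
  have hNpos : (0 : ℝ) < N := lt_of_lt_of_le (by positivity) hN1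
  have hN0 : 0 < N := by exact_mod_cast hNpos
  have hη2 : 4 ≤ η * N := by
    rw [div_le_iff₀ hη] at hN1
    linarith
  have hN3 : η * N < 4 + η := by
    have h3 : η * N < η * (4 / η + 1) := mul_lt_mul_of_pos_left hN2 hη
    have h4 : η * (4 / η + 1) = 4 + η := by field_simp
    linarith
  -- the mean value of `fej - (1/η) fej (2 + x)`
  have h3 : Mean (fun v => fej N t v - 1 / η * (fej N t v * (2 + x v)))
      (1 - 1 / η * (2 / N)) :=
    (mean_fej hO hN0 ht).sub hO ((mean_fej_mul hO hx hm hN0 ht h0 h1 h2).smul (1 / η))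
  have h4 : η / 12 * N < 1 - 1 / η * (2 / N) := by
    have h5 : 1 / η * (2 / N) ≤ 1 / 2 := by
      rw [div_mul_div_comm, one_mul, div_le_div_iff₀ (by positivity) (by norm_num)]
      linarith
    have h6 : η / 12 * N < 1 / 2 := by linarith
    linarith
  have h5 := h3.lim.eventually (lt_mem_nhds h4)
  filter_upwards [h5, eventually_log_pos] with ε h6 h7
  rw [lt_div_iff₀ h7.2] at h6
  have hsum : Summable fun v : HeightOneSpectrum (𝓞 K) => nrm v ^ (-(1 + ε)) :=
    hO.1 (1 + ε) (by linarith)
  have h8 : (∑' v, (fej N t v - 1 / η * (fej N t v * (2 + x v))) * nrm v ^ (-(1 + ε))) ≤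
      ∑' v, N * {v | x v < -2 + η}.indicator (fun v => nrm v ^ (-(1 + ε))) v := by
    refine (summable_bdd hO h3.bdd h7.1).tsum_le_tsum ?_ ((hsum.indicator _).mul_left _)
    intro v
    have hq : 0 ≤ nrm v ^ (-(1 + ε)) := Real.rpow_nonneg (nrm_pos v).le _
    have hf := fej_nonneg N t v
    have hf2 := fej_le N t v
    have hx2 : 0 ≤ 2 + x v := by linarith [neg_abs_le (x v), hx v]
    by_cases h9 : x v < -2 + η
    · have h10 : v ∈ {v | x v < -2 + η} := h9
      rw [Set.indicator_of_mem h10]
      refine mul_le_mul_of_nonneg_right ?_ hq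
      have : 0 ≤ 1 / η * (fej N t v * (2 + x v)) := by positivity
      linarith
    · have h10 : v ∉ {v | x v < -2 + η} := h9
      rw [Set.indicator_of_notMem h10, mul_zero]
      refine mul_nonpos_of_nonpos_of_nonneg ?_ hq
      have h11 : 1 ≤ 1 / η * (2 + x v) := by
        rw [one_div, le_inv_mul_iff₀ hη]
        linarith
      nlinarith
  rw [tsum_mul_left] at h8
  have h9 : N * (η / 12 * Real.log (1 / ε)) ≤
      N * ∑' v, {v | x v < -2 + η}.indicator (fun v => nrm v ^ (-(1 + ε))) v := by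
    refine le_trans ?_ h8
    linarith
  exact le_of_mul_le_mul_left h9 hNpos

end bias

end Pool.Agent.MPfb225e
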