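import Mathlib
import Pool.Agent.Lib.MP_fb225e_nt.Fam.LocalFactor
import Pool.Agent.Lib.MP_fb225e_nt.Simple.Bias
import Pool.Agent.Lib.MP_fb225e_nt.Edge

/-!
MP_fb225e_nt: the bias of the `a_v` forced by a zero off the real axis.
-/

namespace Pool.Agent.MPfb225e.Curve

open NumberField IsDedekindDomain Filter Topology IsLocalRing

universe u

variable {K : Type u} [Field K] [NumberField K]

/-- Minus the linear coefficient of the local polynomial of `W` at `v`. -/
noncomputable def traceAt (W : WeierstrassCurve K) (v : HeightOneSpectrum (𝓞 K)) : ℤ :=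
  -((W.baseChange (v.adicCompletion K)).localPolynomial (v.adicCompletionIntegers K)).coeff 1

theorem bias_curve (hH : Hasse.{u}) (hO : Orthogonality K) (hC : Classification K)
    (W : WeierstrassCurve K) (F : ℂ → ℂ) (hF : Differentiable ℂ F)
    (hFL : ∀ s : ℂ, 3 / 2 < s.re → F s = W.LSeries s) {ρ : ℂ} (hρ : 3 / 2 ≤ ρ.re)
    (hρ0 : F ρ = 0) (hρ1 : ρ ≠ 3 / 2) {η : ℝ} (hη : 0 < η) (hη1 : η ≤ 1) :
    ∀ᶠ ε : ℝ in 𝓝[>] 0, η / 16 * Real.log (1 / ε) ≤
      ∑' v, {v | (traceAt W v : ℝ) < -(2 - η) * √(Ideal.absNorm v.asIdeal)}.indicator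
        (fun v => (Ideal.absNorm v.asIdeal : ℝ) ^ (-(1 + ε))) v := by
  classical
  obtain ⟨x, hx, hne, hexp, hxv⟩ := Fam.logExpansion' hH hO W
  have hFne : ∀ s : ℂ, 3 / 2 < s.re → F s ≠ 0 := fun s hs => by
    rw [hFL s hs]; exact hne s hs
  have han : ∀ s, AnalyticAt ℂ F s := fun s => hF.analyticAt s
  have htop : ∀ t : ℝ, analyticOrderAt F (3 / 2 + t * Complex.I) ≠ ⊤ := by
    intro t ht
    rw [analyticOrderAt_eq_top] at ht
    have hline : Tendsto (fun ε : ℝ => (3 / 2 + t * Complex.I) + (ε : ℂ)) (𝓝[>] 0)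
        (𝓝 (3 / 2 + t * Complex.I)) := by
      have h1 : Tendsto (fun ε : ℝ => (3 / 2 + t * Complex.I) + (ε : ℂ)) (𝓝 0)
        (𝓝 ((3 / 2 + t * Complex.I) + ((0 : ℝ) : ℂ))) :=
        (continuous_const.add Complex.continuous_ofReal).tendsto 0
      simp only [Complex.ofReal_zero, add_zero] at h1
      exact h1.mono_left nhdsWithin_le_nhds
    obtain ⟨ε, h1, h2⟩ := ((hline.eventually ht).and self_mem_nhdsWithin).exists
    have h2 : 0 < ε := h2
    refine hFne _ ?_ h1
    simp
    exact h2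
  set m : ℝ → ℕ := fun t => analyticOrderNatAt F (3 / 2 + t * Complex.I) with hm
  have hmeq : ∀ t : ℝ, analyticOrderAt F (3 / 2 + t * Complex.I) = (m t : ℕ∞) := fun t =>
    (Nat.cast_analyticOrderNatAt (htop t)).symm
  have hlim : ∀ t : ℝ, Tendsto (fun ε : ℝ => cosSum x t ε / Real.log (1 / ε)) (𝓝[>] 0)
      (𝓝 (-(m t : ℝ))) := by
    intro t
    have h1 := Edge.tendsto_log_norm_div (han (3 / 2 + t * Complex.I)) (hmeq t)
    obtain ⟨B, hB⟩ := hexp t
    have h2 : Tendsto (fun ε : ℝ => (cosSum x t ε - Real.log ‖F (3 / 2 + t * Complex.I + ε)‖) /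
        Real.log (1 / ε)) (𝓝[>] 0) (𝓝 0) := by
      have h3 : Tendsto (fun ε : ℝ => B / Real.log (1 / ε)) (𝓝[>] 0) (𝓝 0) :=
        tendsto_const_nhds.div_atTop Edge.tendsto_log_inv
      refine squeeze_zero_norm' ?_ h3
      have hsmall : ∀ᶠ ε : ℝ in 𝓝[>] 0, ε < 1 := by
        have : ∀ᶠ ε : ℝ in 𝓝 0, ε < 1 := gt_mem_nhds (by norm_num)
        exact this.filter_mono nhdsWithin_le_nhds
      filter_upwards [self_mem_nhdsWithin, hsmall] with ε h4 h5
      rw [Set.mem_Ioi] at h4
      have hl : 0 < Real.log (1 / ε) := Real.log_pos (by rw [one_div]; exact (one_lt_inv₀ h4).mpr h5)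
      rw [norm_div, Real.norm_of_nonneg hl.le, Real.norm_eq_abs]
      refine div_le_div_of_nonneg_right ?_ hl.le
      have h6 := hB ε h4 h5.le
      rw [abs_sub_comm] at h6
      have e : ((3 / 2 + ε : ℝ) : ℂ) + t * Complex.I = 3 / 2 + t * Complex.I + ε := by
        push_cast; ring
      rw [e] at h6
      rw [hFL _ (by simp; exact h4)]
      exact h6
    have h7 := h2.add h1
    rw [zero_add] at h7
    refine h7.congr fun ε => ?_
    rw [← add_div]
    congr 1
    ring
  obtain ⟨t₀, ht₀, hcl⟩ := hC hO x m hx hlim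
  -- the given zero
  have hre : ρ.re = 3 / 2 := by
    rcases hρ.lt_or_eq with h | h
    · exact absurd hρ0 (hFne ρ h)
    · exact h.symm
  have hρ' : ρ = 3 / 2 + ρ.im * Complex.I := by
    apply Complex.ext
    · simp [hre]
    · simp
  have him : ρ.im ≠ 0 := by
    intro h
    apply hρ1
    rw [hρ', h]
    simp
  have hm0 : m ρ.im ≠ 0 := by
    intro h0
    have h1 := hmeq ρ.im
    rw [h0, ← hρ'] at h1
    have h2 : analyticOrderAt F ρ = 0 := by simpa using h1
    rw [(han ρ).analyticOrderAt_eq_zero] at h2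
    exact h2 hρ0
  obtain ⟨h1, h2⟩ := hcl ρ.im hm0
  have ht0 : t₀ ≠ 0 := by
    intro h
    rcases h1 with h3 | h3
    · exact him (h3.trans h)
    · exact him (by rw [h3, h, neg_zero])
  rw [if_neg ht0] at h2
  have hm1 : m ρ.im = 1 := le_antisymm h2 (Nat.one_le_iff_ne_zero.2 hm0)
  have hall : ∀ s, m s ≠ 0 → s = ρ.im ∨ s = -ρ.im := by
    intro s hs
    obtain ⟨h3, -⟩ := hcl s hs
    rcases h1 with h1 | h1 <;> rcases h3 with h3 | h3
    · left; rw [h3, h1]
    · right; rw [h3, h1]
    · right; rw [h3, h1, neg_neg]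
    · left; rw [h3, h1]
  have hzero : m 0 = 0 := by
    by_contra hcon
    rcases hall 0 hcon with h3 | h3
    · exact him h3.symm
    · exact him (neg_eq_zero.1 h3.symm)
  have key := bias hO hx hlim him hzero hm1 hall hη hη1
  -- comparison
  have hfin := finite_exc (K := K)
  have hC0 : Tendsto (fun ε : ℝ => Real.log (1 / ε)) (𝓝[>] 0) atTop := Edge.tendsto_log_inv
  filter_upwards [key, eventually_log_pos, hC0.eventually_ge_atTop
    (hfin.toFinset.card * (48 / η))] with ε h3 h4 h5
  have hsum : Summable fun v : HeightOneSpectrum (𝓞 K) => nrm v ^ (-(1 + ε)) :=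
    hO.1 (1 + ε) (by linarith)
  have h6 : (∑' v, {v | x v < -2 + η}.indicator (fun v => nrm v ^ (-(1 + ε))) v) ≤
      ∑' v, ({v | (traceAt W v : ℝ) < -(2 - η) * √(Ideal.absNorm v.asIdeal)}.indicator
        (fun v => nrm v ^ (-(1 + ε))) v + (exc K).indicator (fun v => nrm v ^ (-(1 + ε))) v) := by
    refine (hsum.indicator _).tsum_le_tsum ?_ ((hsum.indicator _).add (hsum.indicator _))
    intro v
    have hq : 0 ≤ nrm v ^ (-(1 + ε)) := Real.rpow_nonneg (nrm_pos v).le _
    by_cases hv : v ∈ exc K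
    · rw [Set.indicator_of_mem hv]
      have h7 : {v | x v < -2 + η}.indicator (fun v => nrm v ^ (-(1 + ε))) v ≤
          nrm v ^ (-(1 + ε)) := Set.indicator_le_self' (fun _ _ => hq) v
      have h8 : 0 ≤ {v | (traceAt W v : ℝ) < -(2 - η) * √(Ideal.absNorm v.asIdeal)}.indicator
        (fun v => nrm v ^ (-(1 + ε))) v := Set.indicator_nonneg
          (fun v _ => Real.rpow_nonneg (nrm_pos v).le _) v
      linarith
    · rw [Set.indicator_of_notMem hv, add_zero]
      by_cases h7 : x v < -2 + η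
      · have h8 : v ∈ {v | x v < -2 + η} := h7
        rw [Set.indicator_of_mem h8]
        have h9 : v ∈ {v : HeightOneSpectrum (𝓞 K) |
            (traceAt W v : ℝ) < -(2 - η) * √(Ideal.absNorm v.asIdeal)} := by
          have hN : (0 : ℝ) < √(Ideal.absNorm v.asIdeal) := Real.sqrt_pos.2 (nrm_pos v)
          have h10 := hxv v hv
          rw [qv_eq] at h10
          have h11 : x v = (traceAt W v : ℝ) / √(Ideal.absNorm v.asIdeal) := by
            rw [h10]
            unfold traceAt
            push_cast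
            rfl
          rw [Set.mem_ofPred_eq]
          rw [h11, div_lt_iff₀ hN] at h7
          linarith
        rw [Set.indicator_of_mem h9]
      · have h8 : v ∉ {v | x v < -2 + η} := h7
        rw [Set.indicator_of_notMem h8]
        exact Set.indicator_nonneg (fun v _ => Real.rpow_nonneg (nrm_pos v).le _) v
  rw [(hsum.indicator _).tsum_add (hsum.indicator _)] at h6
  have h7 : (∑' v, (exc K).indicator (fun v => nrm v ^ (-(1 + ε))) v) ≤ hfin.toFinset.card := by
    rw [tsum_eq_sum (s := hfin.toFinset)]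
    · refine le_trans (Finset.sum_le_card_nsmul _ _ 1 fun v _ => ?_) (by simp)
      refine le_trans (Set.indicator_le_self' (fun _ _ => Real.rpow_nonneg (nrm_pos v).le _) v) ?_
      have h8 : 1 ≤ nrm v := by
        unfold nrm
        have : 0 < Ideal.absNorm v.asIdeal := by
          have := nrm_pos v
          unfold nrm at this
          exact_mod_cast this
        exact_mod_cast this
      exact Real.rpow_le_one_of_one_le_of_nonpos h8 (by linarith [h4.1])
    · intro v hv
      rw [Set.Finite.mem_toFinset] at hv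
      exact Set.indicator_of_notMem hv _
  have h8 : (hfin.toFinset.card : ℝ) ≤ η / 48 * Real.log (1 / ε) := by
    have h9 : (hfin.toFinset.card : ℝ) * (48 / η) * (η / 48) ≤ Real.log (1 / ε) * (η / 48) :=
      mul_le_mul_of_nonneg_right h5 (by positivity)
    have h10 : (hfin.toFinset.card : ℝ) * (48 / η) * (η / 48) = hfin.toFinset.card := by
      have h11 : 48 / η * (η / 48) = 1 := by
        rw [div_mul_div_comm, mul_comm, div_self (by positivity)]
      rw [mul_assoc, h11, mul_one]
    linarith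
  have e : (fun v : HeightOneSpectrum (𝓞 K) => (Ideal.absNorm v.asIdeal : ℝ) ^ (-(1 + ε))) =
      fun v => nrm v ^ (-(1 + ε)) := rfl
  rw [e]
  have h9 : η / 12 * Real.log (1 / ε) = η / 16 * Real.log (1 / ε) + η / 48 * Real.log (1 / ε) := by
    ring
  linarith

end Pool.Agent.MPfb225e.Curve
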